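import Pool.Agent.Lib.MP_953685_nt.Main

/-! The 2-adic case analysis. -/

namespace Pool.Agent.Lib.MP_953685_nt

lemma opo_cases {z : ℤ} (h : OddPartOne z) : z % 4 = 1 ∨ z % 8 = 2 ∨ z % 4 = 0 := by
  obtain ⟨k, w, rfl, hw⟩ := h
  rcases k with _ | _ | k
  · left; simpa using hw
  · right; left; omega
  · right; right
    have : (2 : ℤ) ^ (k + 1 + 1) * w = 4 * (2 ^ k * w) := by ring
    omega

lemma zne {a : ℤ} (h : a % 4 ≠ 3) : (a : ZMod 4) ≠ 3 := by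
  intro h1
  have h2 : (a : ZMod 4) = ((3 : ℤ) : ZMod 4) := by rw [h1]; rfl
  have := (ZMod.intCast_eq_intCast_iff_dvd_sub a 3 4).1 h2
  omega

lemma zA0 : ∀ c d w y K m : ZMod 4, d ≠ 3 → 2 * w - d ≠ 3 →
    2 * c + d ^ 2 = (2 * w - d) ^ 2 + m + 2 * y →
    -(2 * (2 * w * d)) - 2 * w + 2 * c + 2 * K + 2 * y = m + 2 * (K + w) := by decide +kernel

lemma zA1 : ∀ c d w y K m : ZMod 4, d ≠ 3 → 2 * w + 1 - d ≠ 3 →
    2 * c + d ^ 2 = (2 * w + 1 - d) ^ 2 + m + 2 * y →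
    -(2 * ((2 * w + 1) * d)) - (2 * w + 1) + 2 * c + 2 * K + 2 * y = m + 2 * (K + w) := by
  decide +kernel

theorem caseA {c d x y K' m s t j : ℤ} (hm : m % 2 = 1) (hc : c % 4 = 1) (hd2 : d % 2 = 0)
    (hd : OddPartOne d) (hx : OddPartOne x) (hy : y % 4 = 1) (hcd : IsCoprime c d)
    (hrel : c ^ 2 + d ^ 2 = x ^ 2 + (m + (4 * K') ^ 2) * y ^ 2)
    (hco : IsCoprime (c ^ 2 + d ^ 2) (m * y))
    (hj : J ((s : G) * rho c d x y (4 * K') + (t : G) * rhot c d x y (4 * K')) (m : G) = E j) :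
    J ⟨4 * K' * y, x⟩ ⟨c, d⟩ =
      E (j + ((m - 1) / 4 + 2 * (K' + (d + x) / 4))) * J (y : G) ⟨c, d⟩ := by
  obtain ⟨c1, hc1⟩ : ∃ c1, c = 1 + 4 * c1 := ⟨c / 4, by omega⟩
  obtain ⟨y1, hy1⟩ : ∃ y1, y = 1 + 4 * y1 := ⟨y / 4, by omega⟩
  obtain ⟨d1, hd1⟩ : ∃ d1, d = 2 * d1 := ⟨d / 2, by omega⟩
  obtain ⟨m0, hm0⟩ : ∃ m0, m = 1 + 2 * m0 := ⟨m / 2, by omega⟩
  have hx2 : x % 2 = 0 := by
    by_contra h
    obtain ⟨x1, hx1⟩ : ∃ x1, x = 1 + 2 * x1 := ⟨x / 2, by omega⟩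
    rw [hc1, hy1, hd1, hm0, hx1] at hrel
    ring_nf at hrel
    omega
  obtain ⟨x1, hx1⟩ : ∃ x1, x = 2 * x1 := ⟨x / 2, by omega⟩
  have hm4 : m % 4 = 1 := by
    rw [hc1, hy1, hd1, hm0, hx1] at hrel
    ring_nf at hrel
    omega
  obtain ⟨m1, hm1⟩ : ∃ m1, m = 1 + 4 * m1 := ⟨m / 4, by omega⟩
  have n1 : d1 % 4 ≠ 3 := by have := opo_cases hd; omega
  have n2 : x1 % 4 ≠ 3 := by have := opo_cases hx; omega
  have R : 2 * c1 + d1 ^ 2 = x1 ^ 2 + m1 + 2 * y1 + 4 * (K' ^ 2 - c1 ^ 2 + y1 ^ 2 +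
      (m1 + 4 * K' ^ 2) * (2 * y1 + 4 * y1 ^ 2)) := by
    rw [hc1, hy1, hd1, hm1, hx1] at hrel
    linarith
  rw [core (k := 0) (η := 1) (ρ2 := rho c d x y (4 * K')) (c' := 2 * c1) (d' := d1) (y0 := y)
    (y' := 2 * y1) (n' := 2 * (m1 + (1 + 4 * m1) * (2 * y1 + 4 * y1 ^ 2)))
    (A' := 2 * (c1 + K' * y)) (r := 2 * (c1 + K' * y)) (h := d1 + x1) (u1 := 0) (u2 := 0)
    (u3 := 0) (by omega) hd1 hcd hrel hco hm (by simp) hy (by omega)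
    (by rw [hm1, hy1]; ring) (by rw [mul_assoc]; omega) (by rw [hc1]; ring)
    (fun a _ => isCoprime_one_left) (by simp) (by simp only [rho]; rw [hc1]; ring)
    (by simp only [rho]; omega) (by simp [J_one_left]) (by simp [J_one_left])
    (by simp [J_one_left]) hj]
  congr 1
  have R' := congrArg (Int.cast : ℤ → ZMod 4) R
  have h4 : (4 : ZMod 4) = 0 := rfl
  rw [show (m - 1) / 4 = m1 by omega]
  rcases Int.emod_two_eq_zero_or_one (d1 + x1) with h | h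
  · obtain ⟨w, hw⟩ : ∃ w, x1 = 2 * w - d1 := ⟨(d1 + x1) / 2, by omega⟩
    rw [show (d + x) / 4 = w by omega]
    have n3 := zne n2
    rw [hw] at R' n3
    push_cast at R' n3
    rw [h4, zero_mul, add_zero] at R'
    have := zA0 c1 d1 w y1 K' m1 (zne n1) n3 R'
    apply E_zmod
    rw [hw, hy1]
    push_cast
    rw [← this]
    ring_nf
    reduce_mod_char
  · obtain ⟨w, hw⟩ : ∃ w, x1 = 2 * w + 1 - d1 := ⟨(d1 + x1) / 2, by omega⟩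
    rw [show (d + x) / 4 = w by omega]
    have n3 := zne n2
    rw [hw] at R' n3
    push_cast at R' n3
    rw [h4, zero_mul, add_zero] at R'
    have := zA1 c1 d1 w y1 K' m1 (zne n1) n3 R'
    apply E_zmod
    rw [hw, hy1]
    push_cast
    rw [← this]
    ring_nf
    reduce_mod_char
    ring_nf
    reduce_mod_char

lemma coprime_eta1 (a : ℤ) (h : a % 2 = 1) : IsCoprime (gi * (1 + gi)) (a : G) :=
  (coprime_gi _).mul_left (coprime_one_add_gi h)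

lemma J_one_add_gi_three {m : ℤ} (hm : m % 4 = 3) :
    J (1 + gi) (m : G) = E ((-m - 1) / 4) := by
  rw [← J_neg_right, ← Int.cast_neg, J_one_add_gi_rat _ (by omega)]

theorem caseB1 {c d x y0 K' m s t j : ℤ} (hm : m % 4 = 1) (hc : c % 4 = 1) (hd : d % 8 = 2)
    (hx : x % 4 = 1) (hy : y0 % 4 = 1) (hcd : IsCoprime c d)
    (hrel : c ^ 2 + d ^ 2 = x ^ 2 + (m + (4 * K') ^ 2) * (2 * y0) ^ 2)
    (hco : IsCoprime (c ^ 2 + d ^ 2) (m * (2 * y0)))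
    (hj : J ((s : G) * rho c d x (2 * y0) (4 * K') + (t : G) * rhot c d x (2 * y0) (4 * K'))
      (m : G) = E j) :
    J ⟨4 * K' * (2 * y0), x⟩ ⟨c, d⟩ =
      E (j + (-((m - 1) / 4) + 0)) * J ((2 * y0 : ℤ) : G) ⟨c, d⟩ := by
  obtain ⟨c1, hc1⟩ : ∃ c1, c = 1 + 4 * c1 := ⟨c / 4, by omega⟩
  obtain ⟨y1, hy1⟩ : ∃ y1, y0 = 1 + 4 * y1 := ⟨y0 / 4, by omega⟩
  obtain ⟨d1, hd1⟩ : ∃ d1, d = 2 + 8 * d1 := ⟨d / 8, by omega⟩
  obtain ⟨x1, hx1⟩ : ∃ x1, x = 1 + 4 * x1 := ⟨x / 4, by omega⟩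
  obtain ⟨m1, hm1⟩ : ∃ m1, m = 1 + 4 * m1 := ⟨m / 4, by omega⟩
  obtain ⟨W, hW⟩ : ∃ W, W = K' * y0 := ⟨_, rfl⟩
  obtain ⟨N, hN⟩ : ∃ N, N = m1 + (1 + 4 * m1) * (2 * y1 + 4 * y1 ^ 2) := ⟨_, rfl⟩
  have hA : c + 4 * K' * (2 * y0) = 1 + 4 * (c1 + 2 * W) := by rw [hc1, hW]; ring
  have hn : m * y0 ^ 2 = 1 + 4 * N := by rw [hm1, hy1, hN]; ring
  have R : c1 + 2 * c1 ^ 2 = x1 + 2 * x1 ^ 2 + 2 * m1 + 4 * (2 * K' ^ 2 - d1 - 2 * d1 ^ 2 +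
      (1 + 4 * m1 + 16 * K' ^ 2) * (y1 + 2 * y1 ^ 2)) := by
    rw [hc1, hy1, hd1, hm1, hx1] at hrel
    linarith
  rw [core (k := 1) (η := gi * (1 + gi))
    (ρ2 := ⟨1 + 2 * (2 * d1 + x1 - c1 - 2 * W), 2 * (-(1 + 2 * d1 + x1 + c1 + 2 * W))⟩)
    (c' := 2 * c1) (d' := 1 + 4 * d1) (y0 := y0) (y' := 2 * y1) (n' := 2 * N)
    (A' := 2 * (c1 + 2 * W)) (r := 2 * d1 + x1 - c1 - 2 * W)
    (h := -(1 + 2 * d1 + x1 + c1 + 2 * W))
    (u1 := (2 * c1 * (2 * c1 + 1) + (1 + 4 * d1) ^ 2) + (2 * d1 - c1 - 1))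
    (u2 := 2 * N * (2 * N + 1) + N)
    (u3 := 2 * (c1 + 2 * W) * (2 * (c1 + 2 * W) + 1) + (c1 + 2 * W))
    (by omega) (by omega) hcd hrel hco (by omega) (by simp) hy (by omega) (by omega) (by omega)
    (by omega) coprime_eta1
    (by
      ext
      · simp only [rho]; rw [hA]; simp; ring
      · simp only [rho]; rw [hd1, hx1]; simp; ring)
    rfl rfl
    (by
      rw [J_mul_left, J_gi_semi (a := 2 * c1) (b := 1 + 4 * d1) (by simp only; omega)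
        (by simp only; omega), J_one_add_gi_two (a := c1) (b := 2 * d1) hcd hc1
        (by simp only; omega), ← E_add])
    (by
      rw [J_mul_left, J_gi_rat (a' := 2 * N) (by omega), J_one_add_gi_rat _ (by omega), ← E_add]
      congr 2; omega)
    (by
      rw [J_mul_left, J_gi_rat (a' := 2 * (c1 + 2 * W)) (by omega), J_one_add_gi_rat _ (by omega),
        ← E_add]
      congr 2; omega) hj]
  congr 1
  have R' := congrArg (Int.cast : ℤ → ZMod 4) R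
  have h4 : (4 : ZMod 4) = 0 := rfl
  push_cast at R'
  rw [h4, zero_mul, add_zero] at R'
  rw [show (m - 1) / 4 = m1 by omega]
  apply E_zmod
  rw [hN, hc1]
  push_cast
  congr 1
  ring_nf
  reduce_mod_char
  generalize (c1 : ZMod 4) = c1 at *
  generalize (x1 : ZMod 4) = x1 at *
  generalize (m1 : ZMod 4) = m1 at *
  generalize (y1 : ZMod 4) = y1 at *
  generalize (d1 : ZMod 4) = d1 at *
  generalize (W : ZMod 4) = W at *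
  revert c1 x1 m1 y1 d1 W
  decide +kernel

theorem caseB3 {c d x y0 K' m s t j : ℤ} (hm : m % 4 = 3) (hc : c % 4 = 1) (hd : d % 8 = 2)
    (hx : x % 4 = 1) (hy : y0 % 4 = 1) (hcd : IsCoprime c d)
    (hrel : c ^ 2 + d ^ 2 = x ^ 2 + (m + (4 * K') ^ 2) * (2 * y0) ^ 2)
    (hco : IsCoprime (c ^ 2 + d ^ 2) (m * (2 * y0)))
    (hj : J ((s : G) * rho c d x (2 * y0) (4 * K') + (t : G) * rhot c d x (2 * y0) (4 * K'))
      (m : G) = E j) :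
    J ⟨4 * K' * (2 * y0), x⟩ ⟨c, d⟩ =
      E (j + ((m + 1) / 4 + 1)) * J ((2 * y0 : ℤ) : G) ⟨c, d⟩ := by
  obtain ⟨c1, hc1⟩ : ∃ c1, c = 1 + 4 * c1 := ⟨c / 4, by omega⟩
  obtain ⟨y1, hy1⟩ : ∃ y1, y0 = 1 + 4 * y1 := ⟨y0 / 4, by omega⟩
  obtain ⟨d1, hd1⟩ : ∃ d1, d = 2 + 8 * d1 := ⟨d / 8, by omega⟩
  obtain ⟨x1, hx1⟩ : ∃ x1, x = 1 + 4 * x1 := ⟨x / 4, by omega⟩
  obtain ⟨m1, hm1⟩ : ∃ m1, m = 3 + 4 * m1 := ⟨m / 4, by omega⟩
  obtain ⟨W, hW⟩ : ∃ W, W = K' * y0 := ⟨_, rfl⟩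
  obtain ⟨N, hN⟩ : ∃ N, N = -1 - m1 - (3 + 4 * m1) * (2 * y1 + 4 * y1 ^ 2) := ⟨_, rfl⟩
  have hA : c + 4 * K' * (2 * y0) = 1 + 4 * (c1 + 2 * W) := by rw [hc1, hW]; ring
  have hn : m * y0 ^ 2 = -1 - 4 * N := by rw [hm1, hy1, hN]; ring
  have R : c1 + 2 * c1 ^ 2 = x1 + 2 * x1 ^ 2 + 1 + 2 * m1 + 4 * (2 * K' ^ 2 - d1 - 2 * d1 ^ 2 +
      (3 + 4 * m1 + 16 * K' ^ 2) * (y1 + 2 * y1 ^ 2)) := by
    rw [hc1, hy1, hd1, hm1, hx1] at hrel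
    linarith
  rw [core (k := 1) (η := gi * (1 + gi))
    (ρ2 := ⟨1 + 2 * (2 * d1 + x1 - c1 - 2 * W), 2 * (-(1 + 2 * d1 + x1 + c1 + 2 * W))⟩)
    (c' := 2 * c1) (d' := 1 + 4 * d1) (y0 := y0) (y' := 2 * y1) (n' := -1 - 2 * N)
    (A' := 2 * (c1 + 2 * W)) (r := 2 * d1 + x1 - c1 - 2 * W)
    (h := -(1 + 2 * d1 + x1 + c1 + 2 * W))
    (u1 := (2 * c1 * (2 * c1 + 1) + (1 + 4 * d1) ^ 2) + (2 * d1 - c1 - 1))
    (u2 := (-1 - 2 * N) * (-1 - 2 * N + 1) + N)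
    (u3 := 2 * (c1 + 2 * W) * (2 * (c1 + 2 * W) + 1) + (c1 + 2 * W))
    (by omega) (by omega) hcd hrel hco (by omega) (by simp) hy (by omega) (by omega) (by omega)
    (by omega) coprime_eta1
    (by
      ext
      · simp only [rho]; rw [hA]; simp; ring
      · simp only [rho]; rw [hd1, hx1]; simp; ring)
    rfl rfl
    (by
      rw [J_mul_left, J_gi_semi (a := 2 * c1) (b := 1 + 4 * d1) (by simp only; omega)
        (by simp only; omega), J_one_add_gi_two (a := c1) (b := 2 * d1) hcd hc1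
        (by simp only; omega), ← E_add])
    (by
      rw [J_mul_left, J_gi_rat (a' := -1 - 2 * N) (by omega), J_one_add_gi_three (by omega),
        ← E_add]
      congr 2; omega)
    (by
      rw [J_mul_left, J_gi_rat (a' := 2 * (c1 + 2 * W)) (by omega), J_one_add_gi_rat _ (by omega),
        ← E_add]
      congr 2; omega) hj]
  congr 1
  have R' := congrArg (Int.cast : ℤ → ZMod 4) R
  have h4 : (4 : ZMod 4) = 0 := rfl
  push_cast at R'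
  rw [h4, zero_mul, add_zero] at R'
  rw [show (m + 1) / 4 = m1 + 1 by omega]
  apply E_zmod
  rw [hN, hc1]
  push_cast
  congr 1
  ring_nf
  reduce_mod_char
  generalize (c1 : ZMod 4) = c1 at *
  generalize (x1 : ZMod 4) = x1 at *
  generalize (m1 : ZMod 4) = m1 at *
  generalize (y1 : ZMod 4) = y1 at *
  generalize (d1 : ZMod 4) = d1 at *
  generalize (W : ZMod 4) = W at *
  revert c1 x1 m1 y1 d1 W
  decide +kernel

theorem caseC1 {c d x y y0 K' m s t j : ℤ} {k : ℕ} (hm : m % 4 = 1) (hc : c % 4 = 1)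
    (hd : d % 4 = 0) (hx : x % 4 = 1) (hyk : y = 2 ^ (k + 2) * y0) (hy : y0 % 4 = 1)
    (hcd : IsCoprime c d) (hrel : c ^ 2 + d ^ 2 = x ^ 2 + (m + (4 * K') ^ 2) * y ^ 2)
    (hco : IsCoprime (c ^ 2 + d ^ 2) (m * y))
    (hj : J ((s : G) * rho c d x y (4 * K') + (t : G) * rhot c d x y (4 * K')) (m : G) = E j) :
    J ⟨4 * K' * y, x⟩ ⟨c, d⟩ =
      E (j + (-((m - 1) / 4) + 2 * (y / 4 + d / 4))) * J (y : G) ⟨c, d⟩ := by
  obtain ⟨c1, hc1⟩ : ∃ c1, c = 1 + 4 * c1 := ⟨c / 4, by omega⟩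
  obtain ⟨y1, hy1⟩ : ∃ y1, y0 = 1 + 4 * y1 := ⟨y0 / 4, by omega⟩
  obtain ⟨d1, hd1⟩ : ∃ d1, d = 4 * d1 := ⟨d / 4, by omega⟩
  obtain ⟨x1, hx1⟩ : ∃ x1, x = 1 + 4 * x1 := ⟨x / 4, by omega⟩
  obtain ⟨m1, hm1⟩ : ∃ m1, m = 1 + 4 * m1 := ⟨m / 4, by omega⟩
  obtain ⟨y2, hy2⟩ : ∃ y2, y = 4 * y2 := ⟨2 ^ k * y0, by rw [hyk]; ring⟩
  obtain ⟨W, hW⟩ : ∃ W, W = K' * y2 := ⟨_, rfl⟩
  obtain ⟨N, hN⟩ : ∃ N, N = m1 + (1 + 4 * m1) * (2 * y1 + 4 * y1 ^ 2) := ⟨_, rfl⟩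
  have hA : c + 4 * K' * y = 1 + 4 * (c1 + 4 * W) := by rw [hc1, hW, hy2]; ring
  have hn : m * y0 ^ 2 = 1 + 4 * N := by rw [hm1, hy1, hN]; ring
  have R : c1 + 2 * c1 ^ 2 + 2 * d1 ^ 2 = x1 + 2 * x1 ^ 2 + 2 * y2 ^ 2 +
      4 * ((2 * m1 + 8 * K' ^ 2) * y2 ^ 2) := by
    rw [hc1, hy2, hd1, hm1, hx1] at hrel
    linarith
  rw [core (k := k + 2) (η := 1 + gi)
    (ρ2 := ⟨1 + 2 * (c1 + x1 + d1 + 4 * W), 2 * (d1 + x1 - c1 - 4 * W)⟩)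
    (c' := 2 * c1) (d' := 2 * d1) (y0 := y0) (y' := 2 * y1) (n' := 2 * N)
    (A' := 2 * (c1 + 4 * W)) (r := c1 + x1 + d1 + 4 * W) (h := d1 + x1 - c1 - 4 * W)
    (u1 := c1 - d1) (u2 := N) (u3 := c1 + 4 * W)
    (by omega) (by omega) hcd hrel hco (by omega) hyk hy (by omega) (by omega) (by omega)
    (by omega) (fun a h => coprime_one_add_gi h)
    (by
      ext
      · simp only [rho]; rw [hA]; simp; ring
      · simp only [rho]; rw [hd1, hx1]; simp; ring)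
    rfl rfl (J_one_add_gi_four hcd hc1 hd1)
    (by rw [J_one_add_gi_rat _ (by omega)]; congr 1; omega)
    (by rw [J_one_add_gi_rat _ (by omega)]; congr 1; omega) hj]
  congr 1
  have R' := congrArg (Int.cast : ℤ → ZMod 4) R
  have h4 : (4 : ZMod 4) = 0 := rfl
  push_cast at R'
  rw [h4, zero_mul, add_zero] at R'
  rw [show (m - 1) / 4 = m1 by omega, show y / 4 = y2 by omega, show d / 4 = d1 by omega]
  apply E_zmod
  rw [hN, hc1]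
  push_cast
  congr 1
  ring_nf
  reduce_mod_char
  generalize (c1 : ZMod 4) = c1 at *
  generalize (x1 : ZMod 4) = x1 at *
  generalize (m1 : ZMod 4) = m1 at *
  generalize (y2 : ZMod 4) = y2 at *
  generalize (d1 : ZMod 4) = d1 at *
  generalize (k : ZMod 4) = k at *
  revert c1 x1 m1 y2 d1 k
  decide +kernel

theorem caseC3 {c d x y y0 K' m s t j : ℤ} {k : ℕ} (hm : m % 4 = 3) (hc : c % 4 = 1)
    (hd : d % 4 = 0) (hx : x % 4 = 1) (hyk : y = 2 ^ (k + 2) * y0) (hy : y0 % 4 = 1)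
    (hcd : IsCoprime c d) (hrel : c ^ 2 + d ^ 2 = x ^ 2 + (m + (4 * K') ^ 2) * y ^ 2)
    (hco : IsCoprime (c ^ 2 + d ^ 2) (m * y))
    (hj : J ((s : G) * rho c d x y (4 * K') + (t : G) * rhot c d x y (4 * K')) (m : G) = E j) :
    J ⟨4 * K' * y, x⟩ ⟨c, d⟩ =
      E (j + ((m + 1) / 4 + 2 * (y / 4))) * J (y : G) ⟨c, d⟩ := by
  obtain ⟨c1, hc1⟩ : ∃ c1, c = 1 + 4 * c1 := ⟨c / 4, by omega⟩
  obtain ⟨y1, hy1⟩ : ∃ y1, y0 = 1 + 4 * y1 := ⟨y0 / 4, by omega⟩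
  obtain ⟨d1, hd1⟩ : ∃ d1, d = 4 * d1 := ⟨d / 4, by omega⟩
  obtain ⟨x1, hx1⟩ : ∃ x1, x = 1 + 4 * x1 := ⟨x / 4, by omega⟩
  obtain ⟨m1, hm1⟩ : ∃ m1, m = 3 + 4 * m1 := ⟨m / 4, by omega⟩
  obtain ⟨y2, hy2⟩ : ∃ y2, y = 4 * y2 := ⟨2 ^ k * y0, by rw [hyk]; ring⟩
  obtain ⟨W, hW⟩ : ∃ W, W = K' * y2 := ⟨_, rfl⟩
  obtain ⟨N, hN⟩ : ∃ N, N = -1 - m1 - (3 + 4 * m1) * (2 * y1 + 4 * y1 ^ 2) := ⟨_, rfl⟩
  have hA : c + 4 * K' * y = 1 + 4 * (c1 + 4 * W) := by rw [hc1, hW, hy2]; ring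
  have hn : m * y0 ^ 2 = -1 - 4 * N := by rw [hm1, hy1, hN]; ring
  have R : c1 + 2 * c1 ^ 2 + 2 * d1 ^ 2 = x1 + 2 * x1 ^ 2 + 2 * y2 ^ 2 +
      4 * ((1 + 2 * m1 + 8 * K' ^ 2) * y2 ^ 2) := by
    rw [hc1, hy2, hd1, hm1, hx1] at hrel
    linarith
  rw [core (k := k + 2) (η := 1 + gi)
    (ρ2 := ⟨1 + 2 * (c1 + x1 + d1 + 4 * W), 2 * (d1 + x1 - c1 - 4 * W)⟩)
    (c' := 2 * c1) (d' := 2 * d1) (y0 := y0) (y' := 2 * y1) (n' := -1 - 2 * N)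
    (A' := 2 * (c1 + 4 * W)) (r := c1 + x1 + d1 + 4 * W) (h := d1 + x1 - c1 - 4 * W)
    (u1 := c1 - d1) (u2 := N) (u3 := c1 + 4 * W)
    (by omega) (by omega) hcd hrel hco (by omega) hyk hy (by omega) (by omega) (by omega)
    (by omega) (fun a h => coprime_one_add_gi h)
    (by
      ext
      · simp only [rho]; rw [hA]; simp; ring
      · simp only [rho]; rw [hd1, hx1]; simp; ring)
    rfl rfl (J_one_add_gi_four hcd hc1 hd1)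
    (by rw [J_one_add_gi_three (by omega)]; congr 1; omega)
    (by rw [J_one_add_gi_rat _ (by omega)]; congr 1; omega) hj]
  congr 1
  have R' := congrArg (Int.cast : ℤ → ZMod 4) R
  have h4 : (4 : ZMod 4) = 0 := rfl
  push_cast at R'
  rw [h4, zero_mul, add_zero] at R'
  rw [show (m + 1) / 4 = m1 + 1 by omega, show y / 4 = y2 by omega]
  apply E_zmod
  rw [hN, hc1]
  push_cast
  congr 1
  ring_nf
  reduce_mod_char
  generalize (c1 : ZMod 4) = c1 at *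
  generalize (x1 : ZMod 4) = x1 at *
  generalize (m1 : ZMod 4) = m1 at *
  generalize (y2 : ZMod 4) = y2 at *
  generalize (d1 : ZMod 4) = d1 at *
  generalize (k : ZMod 4) = k at *
  revert c1 x1 m1 y2 d1 k
  decide +kernel

theorem master {b m c d x y s t j : ℤ} (hb : 8 ∣ b) (hm : m % 2 = 1) (hc : c % 4 = 1)
    (hd2 : d % 2 = 0) (hd : OddPartOne d) (hx : OddPartOne x) (hy : OddPartOne y)
    (hcd : IsCoprime c d) (hrel : c ^ 2 + d ^ 2 = x ^ 2 + (m + b ^ 2 / 4) * y ^ 2)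
    (hco : IsCoprime (c ^ 2 + d ^ 2) (m * y))
    (hj : J ((s : G) * rho c d x y (b / 2) + (t : G) * rhot c d x y (b / 2)) (m : G) = E j) :
    J ⟨b / 2 * y, x⟩ ⟨c, d⟩ = E (j + ex b m d x y) * J (y : G) ⟨c, d⟩ := by
  obtain ⟨K', rfl⟩ := hb
  have e1 : 8 * K' / 2 = 4 * K' := by omega
  have e2 : (8 * K') ^ 2 / 4 = (4 * K') ^ 2 := by
    rw [show (8 * K') ^ 2 = 4 * (4 * K') ^ 2 by ring]; omega
  have e3 : 8 * K' / 8 = K' := by omega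
  rw [e1] at hj ⊢
  rw [e2] at hrel
  unfold ex
  rw [e3]
  obtain ⟨k, y0, hyk, hy0⟩ := hy
  obtain ⟨c1, hc1⟩ : ∃ c1, c = 1 + 4 * c1 := ⟨c / 4, by omega⟩
  obtain ⟨d1, hd1⟩ : ∃ d1, d = 2 * d1 := ⟨d / 2, by omega⟩
  obtain ⟨m0, hm0⟩ : ∃ m0, m = 1 + 2 * m0 := ⟨m / 2, by omega⟩
  have hxo : y % 2 = 0 → x % 4 = 1 := fun h => by
    obtain ⟨y1, hy1⟩ : ∃ y1, y = 2 * y1 := ⟨y / 2, by omega⟩
    have h1 : x % 2 = 1 := by
      by_contra h2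
      obtain ⟨x1, hx1⟩ : ∃ x1, x = 2 * x1 := ⟨x / 2, by omega⟩
      rw [hc1, hd1, hy1, hx1] at hrel
      ring_nf at hrel
      omega
    have := opo_cases hx
    omega
  rcases k with _ | _ | k
  · have h1 : y % 4 = 1 := by rw [hyk]; simpa using hy0
    rw [if_pos (by omega)]
    exact caseA hm hc hd2 hd hx h1 hcd hrel hco hj
  · have h1 : y = 2 * y0 := by rw [hyk]; ring
    have h2 := hxo (by omega)
    have h3 : d % 8 = 2 := by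
      obtain ⟨x1, hx1⟩ : ∃ x1, x = 1 + 4 * x1 := ⟨x / 4, by omega⟩
      obtain ⟨y1, hy1⟩ : ∃ y1, y0 = 1 + 4 * y1 := ⟨y0 / 4, by omega⟩
      rcases opo_cases hd with h | h | h
      · omega
      · exact h
      · exfalso
        obtain ⟨d2, hd2⟩ : ∃ d2, d = 4 * d2 := ⟨d / 4, by omega⟩
        rw [hc1, hd2, h1, hy1, hx1, hm0] at hrel
        ring_nf at hrel
        omega
    rw [if_neg (by omega), if_neg (show ¬ 4 ∣ y by omega), if_neg (show ¬ 4 ∣ y by omega)]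
    subst h1
    split_ifs with h4
    · exact caseB1 h4 hc h3 h2 hy0 hcd hrel hco hj
    · exact caseB3 (by omega) hc h3 h2 hy0 hcd hrel hco hj
  · obtain ⟨y2, hy2⟩ : ∃ y2, y = 4 * y2 := ⟨2 ^ k * y0, by rw [hyk]; ring⟩
    have h2 := hxo (by omega)
    have h3 : d % 4 = 0 := by
      obtain ⟨x1, hx1⟩ : ∃ x1, x = 1 + 4 * x1 := ⟨x / 4, by omega⟩
      by_contra h
      obtain ⟨d2, hd2⟩ : ∃ d2, d = 2 + 4 * d2 := ⟨d / 4, by omega⟩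
      rw [hc1, hd2, hy2, hx1] at hrel
      ring_nf at hrel
      omega
    rw [if_neg (by omega), if_pos (show 4 ∣ y by omega), if_pos (show 4 ∣ y by omega)]
    split_ifs with h4
    · exact caseC1 h4 hc h3 h2 hyk hy0 hcd hrel hco hj
    · exact caseC3 (by omega) hc h3 h2 hyk hy0 hcd hrel hco hj

end Pool.Agent.Lib.MP_953685_nt
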