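import Pool.Agent.Lib.MP_953685_nt.Defs

/-! Basic properties of the quartic symbols. -/

namespace Pool.Agent.Lib.MP_953685_nt

open UniqueFactorizationMonoid

abbrev G := GaussianInt

@[simp] lemma gi_re : gi.re = 0 := rfl
@[simp] lemma gi_im : gi.im = 1 := rfl

lemma gi_mul_gi : gi * gi = -1 := by
  ext <;> simp

lemma gi_sq : gi ^ 2 = -1 := by rw [pow_two, gi_mul_gi]

lemma gi_pow_four : gi ^ 4 = 1 := by
  have : gi ^ 4 = (gi ^ 2) ^ 2 := by ring
  rw [this, gi_sq]; ring

lemma star_gi : star gi = -gi := by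
  ext <;> simp

lemma G_eq (z : G) : z = (z.re : G) + (z.im : G) * gi := by
  ext <;> simp

lemma norm_eq (z : G) : z.norm = z.re ^ 2 + z.im ^ 2 := by
  rw [Zsqrtd.norm_def]; ring

lemma norm_nonneg' (z : G) : 0 ≤ z.norm := by rw [norm_eq]; positivity

lemma isUnit_of_norm (z : G) (h : z.norm = 1) : IsUnit z := by
  rw [← Zsqrtd.norm_eq_one_iff' (by norm_num) z]; exact h

lemma norm_of_isUnit (z : G) (h : IsUnit z) : z.norm = 1 :=
  (Zsqrtd.norm_eq_one_iff' (by norm_num) z).2 h

lemma norm_dvd {a b : G} (h : a ∣ b) : a.norm ∣ b.norm := by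
  obtain ⟨c, rfl⟩ := h
  rw [Zsqrtd.norm_mul]; exact dvd_mul_right _ _

/-- powers of `i` with integer exponent -/
def E (k : ℤ) : G := gi ^ (k % 4).toNat

lemma gi_pow_mod (n : ℕ) : gi ^ n = gi ^ (n % 4) := by
  conv_lhs => rw [← Nat.div_add_mod n 4, pow_add, pow_mul, gi_pow_four, one_pow, one_mul]

lemma E_nat (n : ℕ) : E (n : ℤ) = gi ^ n := by
  unfold E
  rw [gi_pow_mod n]
  congr 1

lemma E_congr {a b : ℤ} (h : a % 4 = b % 4) : E a = E b := by
  unfold E; rw [h]

lemma E_congr' {a b : ℤ} (h : (4 : ℤ) ∣ a - b) : E a = E b :=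
  E_congr (by omega)

lemma E_add (a b : ℤ) : E (a + b) = E a * E b := by
  unfold E
  rw [← pow_add, gi_pow_mod ((a % 4).toNat + (b % 4).toNat)]
  congr 1
  omega

@[simp] lemma E_zero : E 0 = 1 := by simp [E]
lemma E_one : E 1 = gi := by simp [E]
lemma E_two : E 2 = -1 := by
  have : E 2 = gi ^ 2 := rfl
  rw [this, gi_sq]
lemma E_three : E 3 = -gi := by
  have : E 3 = gi ^ 2 * gi := by rw [← pow_succ]; rfl
  rw [this, gi_sq]; ring

lemma E_mul_neg (a : ℤ) : E a * E (-a) = 1 := by
  rw [← E_add]; simp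

lemma E_pow (a : ℤ) (n : ℕ) : E a ^ n = E (n * a) := by
  induction n with
  | zero => simp
  | succ n ih => rw [pow_succ, ih, ← E_add]; congr 1; push_cast; ring

lemma E_cases (a : ℤ) : E a = 1 ∨ E a = gi ∨ E a = -1 ∨ E a = -gi := by
  have h : a % 4 = 0 ∨ a % 4 = 1 ∨ a % 4 = 2 ∨ a % 4 = 3 := by omega
  rcases h with h | h | h | h
  · left; rw [← E_zero]; exact E_congr (by omega)
  · right; left; rw [← E_one]; exact E_congr (by omega)
  · right; right; left; rw [← E_two]; exact E_congr (by omega)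
  · right; right; right; rw [← E_three]; exact E_congr (by omega)

lemma star_E (a : ℤ) : star (E a) = E (-a) := by
  have h : a % 4 = 0 ∨ a % 4 = 1 ∨ a % 4 = 2 ∨ a % 4 = 3 := by omega
  rcases h with h | h | h | h
  · rw [E_congr (show a % 4 = 0 % 4 by omega), E_congr (show (-a) % 4 = 0 % 4 by omega)]; simp
  · rw [E_congr (show a % 4 = 1 % 4 by omega), E_congr (show (-a) % 4 = 3 % 4 by omega),
      E_one, E_three, star_gi]
  · rw [E_congr (show a % 4 = 2 % 4 by omega), E_congr (show (-a) % 4 = 2 % 4 by omega),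
      E_two]; simp
  · rw [E_congr (show a % 4 = 3 % 4 by omega), E_congr (show (-a) % 4 = 1 % 4 by omega),
      E_one, E_three, star_neg, star_gi, neg_neg]

lemma E_ne_zero (a : ℤ) : E a ≠ 0 := fun h => by
  have := E_mul_neg a
  rw [h, zero_mul] at this
  exact zero_ne_one this

/-- the possible values of the symbol -/
def S (u : G) : Prop := u = 0 ∨ ∃ k, u = E k

lemma S_mul {u v : G} (hu : S u) (hv : S v) : S (u * v) := by
  rcases hu with rfl | ⟨a, rfl⟩
  · left; simp
  rcases hv with rfl | ⟨b, rfl⟩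
  · left; simp
  right; exact ⟨a + b, (E_add a b).symm⟩

lemma S_star {u : G} (hu : S u) : S (star u) := by
  rcases hu with rfl | ⟨a, rfl⟩
  · left; simp
  right; exact ⟨-a, star_E a⟩

lemma S_E (k : ℤ) : S (E k) := Or.inr ⟨k, rfl⟩
lemma S_one : S 1 := Or.inr ⟨0, E_zero.symm⟩

lemma S_cases {u : G} (hu : S u) : u = 0 ∨ u = 1 ∨ u = gi ∨ u = -1 ∨ u = -gi := by
  rcases hu with rfl | ⟨a, rfl⟩
  · left; rfl
  · right; exact E_cases a

lemma not_dvd_small {q δ : G} (hq : Prime q) (ho : q.norm % 2 = 1) (h : q ∣ δ)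
    (hδ : δ.norm ∣ 4) : False := by
  have h1 : q.norm ∣ 4 := (norm_dvd h).trans hδ
  have h0 := norm_nonneg' q
  have h2 : q.norm ≤ 4 := Int.le_of_dvd (by norm_num) h1
  have h3 : q.norm = 1 ∨ q.norm = 3 := by omega
  rcases h3 with h3 | h3
  · exact hq.not_isUnit (isUnit_of_norm q h3)
  · rw [h3] at h1; norm_num at h1

lemma S_inj {q u v : G} (hq : Prime q) (ho : q.norm % 2 = 1) (hu : S u) (hv : S v)
    (h : q ∣ u - v) : u = v := by
  by_contra hne
  refine not_dvd_small hq ho h ?_
  rcases S_cases hu with rfl | rfl | rfl | rfl | rfl <;>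
    rcases S_cases hv with rfl | rfl | rfl | rfl | rfl <;>
    first
      | exact absurd rfl hne
      | (rw [norm_eq]; simp)

lemma exists_prime_below {q : G} (hq : Prime q) (n : ℕ) (hn : n ≠ 0) (h : q ∣ (n : G)) :
    ∃ l : ℕ, l.Prime ∧ q ∣ (l : G) ∧ l ∣ n := by
  induction n using Nat.recOnMul with
  | zero => exact absurd rfl hn
  | one => exact absurd (isUnit_of_dvd_one (by simpa using h)) hq.not_isUnit
  | prime p hp => exact ⟨p, hp, h, dvd_rfl⟩
  | mul a b iha ihb =>
    rw [Nat.cast_mul] at h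
    rcases hq.dvd_or_dvd h with h | h
    · obtain ⟨l, h1, h2, h3⟩ := iha (left_ne_zero_of_mul hn) h
      exact ⟨l, h1, h2, h3.mul_right _⟩
    · obtain ⟨l, h1, h2, h3⟩ := ihb (right_ne_zero_of_mul hn) h
      exact ⟨l, h1, h2, h3.mul_left _⟩

lemma dvd_norm (q : G) : q ∣ ((q.norm.natAbs : ℕ) : G) := by
  have : ((q.norm.natAbs : ℕ) : G) = q * star q := by
    rw [← Zsqrtd.norm_eq_mul_conj, ← Int.cast_natCast, Int.natAbs_of_nonneg (norm_nonneg' q)]
  rw [this]; exact dvd_mul_right _ _

lemma exists_below {q : G} (hq : Prime q) : ∃ l : ℕ, l.Prime ∧ q ∣ (l : G) := by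
  have hn : q.norm.natAbs ≠ 0 := by
    intro h
    have : q.norm = 0 := Int.natAbs_eq_zero.1 h
    exact hq.ne_zero (GaussianInt.norm_eq_zero.1 this)
  obtain ⟨l, h1, h2, _⟩ := exists_prime_below hq _ hn (dvd_norm q)
  exact ⟨l, h1, h2⟩

lemma norm_cases {q : G} (hq : Prime q) {l : ℕ} (hl : l.Prime) (h : q ∣ (l : G)) :
    q.norm = l ∨ (Associated q (l : G) ∧ l % 4 = 3 ∧ q.norm = (l : ℤ) ^ 2) := by
  obtain ⟨β, hβ⟩ := h
  have hN : (l : ℤ) ^ 2 = q.norm * β.norm := by
    rw [← Zsqrtd.norm_mul, ← hβ, norm_eq]; simp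
  have hd : q.norm.natAbs ∣ l ^ 2 := by
    have : q.norm ∣ (l : ℤ) ^ 2 := ⟨_, hN⟩
    have := Int.natAbs_dvd_natAbs.2 this
    simpa [Int.natAbs_pow] using this
  obtain ⟨i, hi, hq2⟩ := (Nat.dvd_prime_pow hl).1 hd
  have hq3 : q.norm = (l : ℤ) ^ i := by
    rw [← Int.natAbs_of_nonneg (norm_nonneg' q), hq2]; push_cast; ring
  interval_cases i
  · exact absurd (isUnit_of_norm q (by simpa using hq3)) hq.not_isUnit
  · left; simpa using hq3
  · right
    have hl0 : (l : ℤ) ^ 2 ≠ 0 := pow_ne_zero _ (by exact_mod_cast hl.ne_zero)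
    have hb : β.norm = 1 := by
      rw [hq3] at hN
      exact (mul_left_cancel₀ hl0 (by rw [← hN, mul_one])).symm
    have hu := isUnit_of_norm β hb
    have ha : Associated q (l : G) := by
      rw [hβ]; exact associated_mul_unit_right _ _ hu
    have hp : Prime (l : G) := ha.prime hq
    have := Fact.mk hl
    exact ⟨ha, GaussianInt.mod_four_eq_three_of_nat_prime_of_prime l hp, hq3⟩

lemma norm_mod_four {z : G} (h : z.norm % 2 = 1) : z.norm % 4 = 1 := by
  rw [norm_eq] at *
  obtain ⟨a, ha⟩ : ∃ a, z.re = 2 * a ∨ z.re = 2 * a + 1 := ⟨z.re / 2, by omega⟩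
  obtain ⟨b, hb⟩ : ∃ b, z.im = 2 * b ∨ z.im = 2 * b + 1 := ⟨z.im / 2, by omega⟩
  rcases ha with ha | ha <;> rcases hb with hb | hb <;> rw [ha, hb] at h ⊢ <;> ring_nf at h ⊢ <;>
    omega

section frob
variable {F : Type*} [CommRing F] (φ : G →+* F) (l : ℕ) [Fact l.Prime] [CharP F l]

lemma frob_aux (z : G) : φ z ^ l = (z.re : F) + (z.im : F) * φ gi ^ l := by
  conv_lhs => rw [G_eq z]
  rw [← frobenius_def, ← frobenius_def]
  simp only [map_add, map_mul, map_intCast]

lemma frob_one (hl : l % 4 = 1) (z : G) : φ z ^ l = φ z := by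
  rw [frob_aux, ← map_pow, gi_pow_mod, hl, pow_one]
  conv_rhs => rw [G_eq z]
  simp only [map_add, map_mul, map_intCast]

lemma frob_three (hl : l % 4 = 3) (z : G) : φ z ^ l = φ (star z) := by
  have h3 : gi ^ 3 = -gi := by rw [pow_succ, gi_sq]; ring
  rw [frob_aux, ← map_pow, gi_pow_mod, hl, h3]
  conv_rhs => rw [G_eq (star z)]
  simp only [map_add, map_mul, map_intCast, map_neg, Zsqrtd.re_star, Zsqrtd.im_star]
  push_cast; ring

end frob

lemma charP_quot {q : G} (hq : Prime q) {l : ℕ} (hl : l.Prime) (h : q ∣ (l : G)) :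
    CharP (G ⧸ Ideal.span {q}) l := by
  have : (Ideal.span {q}).IsPrime := (Ideal.span_singleton_prime hq.ne_zero).2 hq
  have h0 : (l : G ⧸ Ideal.span {q}) = 0 := by
    rw [← map_natCast (Ideal.Quotient.mk (Ideal.span {q})), Ideal.Quotient.eq_zero_iff_mem,
      Ideal.mem_span_singleton]
    exact h
  exact ringChar.of_eq (CharP.ringChar_of_prime_eq_zero hl h0)

lemma mk_eq_iff (q a b : G) :
    Ideal.Quotient.mk (Ideal.span {q}) a = Ideal.Quotient.mk (Ideal.span {q}) b ↔ q ∣ a - b := by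
  rw [Ideal.Quotient.eq, Ideal.mem_span_singleton]

lemma fermat {q : G} (hq : Prime q) (ho : q.norm % 2 = 1) (z : G) :
    q ∣ z ^ q.norm.natAbs - z := by
  obtain ⟨l, hl, h⟩ := exists_below hq
  have := Fact.mk hl
  have := charP_quot hq hl h
  rw [← mk_eq_iff, map_pow]
  rcases norm_cases hq hl h with h1 | ⟨_, h2, h3⟩
  · have h4 := norm_mod_four ho
    rw [h1] at h4 ⊢
    rw [Int.natAbs_natCast]
    exact frob_one _ l (by omega) z
  · rw [h3, Int.natAbs_pow, Int.natAbs_natCast, pow_two, pow_mul, frob_three _ l h2,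
      frob_three _ l h2, star_star]

/-- the exponent -/
def kq (q : G) : ℕ := (q.norm.natAbs - 1) / 4

lemma kq_spec {q : G} (ho : q.norm % 2 = 1) : q.norm.natAbs = 4 * kq q + 1 := by
  have h4 := norm_mod_four ho
  have h0 := norm_nonneg' q
  unfold kq
  omega

lemma kq_spec' {q : G} (ho : q.norm % 2 = 1) : q.norm = 4 * (kq q : ℤ) + 1 := by
  have := kq_spec ho
  have h0 := norm_nonneg' q
  omega

lemma kq_pos {q : G} (hq : Prime q) (ho : q.norm % 2 = 1) : kq q ≠ 0 := by
  intro h
  have := kq_spec' ho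
  rw [h] at this
  exact hq.not_isUnit (isUnit_of_norm q (by simpa using this))

lemma chi_S (z q : G) : S (chi z q) := by
  unfold chi
  split_ifs
  · exact S_one
  · rw [← E_one]; exact S_E _
  · rw [← E_two]; exact S_E _
  · rw [← E_three]; exact S_E _
  · left; rfl

lemma chi_spec {q : G} (hq : Prime q) (ho : q.norm % 2 = 1) (z : G) :
    q ∣ z ^ kq q - chi z q := by
  have hk : (q.norm.natAbs - 1) / 4 = kq q := rfl
  unfold chi
  rw [hk]
  split_ifs with h1 h2 h3 h4
  · exact h1
  · exact h2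
  · simpa using h3
  · simpa using h4
  · rw [sub_zero]
    by_cases hz : q ∣ z
    · exact dvd_pow hz (kq_pos hq ho)
    · exfalso
      have hf := fermat hq ho z
      rw [kq_spec ho] at hf
      have e : z ^ (4 * kq q + 1) - z =
          z * ((z ^ kq q - 1) * ((z ^ kq q - gi) * ((z ^ kq q + 1) * (z ^ kq q + gi)))) := by
        have : z ^ (4 * kq q + 1) = (z ^ kq q) ^ 4 * z := by ring
        rw [this]
        linear_combination (z * ((z ^ kq q) ^ 2 - 1)) * gi_sq
      rw [e] at hf
      rcases hq.dvd_or_dvd hf with h | h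
      · exact hz h
      rcases hq.dvd_or_dvd h with h | h
      · exact h1 h
      rcases hq.dvd_or_dvd h with h | h
      · exact h2 h
      rcases hq.dvd_or_dvd h with h | h
      · exact h3 h
      · exact h4 h

lemma chi_eq {q : G} (hq : Prime q) (ho : q.norm % 2 = 1) {z u : G} (hu : S u)
    (h : q ∣ z ^ kq q - u) : chi z q = u := by
  refine S_inj hq ho (chi_S z q) hu ?_
  have := dvd_sub h (chi_spec hq ho z)
  convert this using 1; ring

lemma chi_even {q : G} (hq : Prime q) (he : ¬ q.norm % 2 = 1) (z : G) : chi z q = 1 := by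
  obtain ⟨l, hl, h⟩ := exists_below hq
  have h2 : q.norm = 2 := by
    rcases norm_cases hq hl h with h1 | ⟨_, h2, h3⟩
    · rcases hl.eq_two_or_odd with h5 | h5
      · rw [h1, h5]; rfl
      · omega
    · exfalso
      apply he
      rw [h3]
      obtain ⟨t, ht⟩ : ∃ t : ℤ, (l : ℤ) = 2 * t + 1 := ⟨(l : ℤ) / 2, by omega⟩
      rw [ht]; ring_nf; omega
  unfold chi
  rw [h2]
  simp

lemma chi_mul {q : G} (hq : Prime q) (z w : G) : chi (z * w) q = chi z q * chi w q := by
  by_cases ho : q.norm % 2 = 1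
  · refine chi_eq hq ho (S_mul (chi_S _ _) (chi_S _ _)) ?_
    have h1 := chi_spec hq ho z
    have h2 := chi_spec hq ho w
    have := dvd_add (h1.mul_right (w ^ kq q)) (h2.mul_left (chi z q))
    convert this using 1; ring
  · simp [chi_even hq ho]

lemma chi_one {q : G} : chi 1 q = 1 := by
  unfold chi; simp

lemma chi_congr {q z w : G} (hq : Prime q) (h : q ∣ z - w) : chi z q = chi w q := by
  by_cases ho : q.norm % 2 = 1
  · refine chi_eq hq ho (chi_S _ _) ?_
    have h1 := chi_spec hq ho w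
    have h2 : q ∣ z ^ kq q - w ^ kq q := h.trans (sub_dvd_pow_sub_pow z w _)
    have := dvd_add h2 h1
    convert this using 1; ring
  · simp [chi_even hq ho]

lemma norm_assoc {a b : G} (h : Associated a b) : a.norm = b.norm := by
  obtain ⟨u, rfl⟩ := h
  rw [Zsqrtd.norm_mul, norm_of_isUnit _ u.isUnit, mul_one]

lemma chi_assoc {q q' : G} (h : Associated q q') (z : G) : chi z q = chi z q' := by
  have h1 : ∀ x, q ∣ x ↔ q' ∣ x := fun x => h.dvd_iff_dvd_left
  have h2 : q.norm = q'.norm := norm_assoc h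
  classical
  unfold chi
  rw [h2]
  exact if_congr (h1 _) rfl (if_congr (h1 _) rfl (if_congr (h1 _) rfl (if_congr (h1 _) rfl rfl)))

lemma prime_star {q : G} (hq : Prime q) : Prime (star q) :=
  (MulEquiv.prime_iff (starRingAut : G ≃+* G).toMulEquiv).2 hq

lemma star_dvd_star {a b : G} (h : a ∣ b) : star a ∣ star b := by
  obtain ⟨c, rfl⟩ := h
  exact ⟨star c, by rw [star_mul, mul_comm]⟩

lemma norm_star (q : G) : (star q).norm = q.norm := Zsqrtd.norm_conj q

lemma chi_star {q : G} (hq : Prime q) (z : G) : chi (star z) (star q) = star (chi z q) := by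
  by_cases ho : q.norm % 2 = 1
  · refine chi_eq (prime_star hq) (by rw [norm_star]; exact ho) (S_star (chi_S _ _)) ?_
    have h1 := star_dvd_star (chi_spec hq ho z)
    have hk : kq (star q) = kq q := by unfold kq; rw [norm_star]
    rw [hk]
    simpa using h1
  · rw [chi_even hq ho, chi_even (prime_star hq) (by rw [norm_star]; exact ho)]; simp

lemma chi_unit {q z : G} (hq : Prime q) (hz : ¬ q ∣ z) : ∃ k, chi z q = E k := by
  rcases chi_S z q with h | h
  · by_cases ho : q.norm % 2 = 1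
    · have := chi_spec hq ho z
      rw [h, sub_zero] at this
      exact absurd (hq.dvd_of_dvd_pow this) hz
    · exact ⟨0, by simp [chi_even hq ho]⟩
  · exact h

lemma chi_zero {q z : G} (hq : Prime q) (ho : q.norm % 2 = 1) (hz : q ∣ z) : chi z q = 0 :=
  chi_eq hq ho (Or.inl rfl) (by simpa using dvd_pow hz (kq_pos hq ho))

/-! ### the Jacobi symbol -/

lemma prod_rel (z : G) {s t : Multiset G} (h : Multiset.Rel Associated s t) :
    (s.map (chi z)).prod = (t.map (chi z)).prod := by
  induction h with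
  | zero => rfl
  | cons hab _ ih => simp [chi_assoc hab z, ih]

lemma J_zero (z : G) : J z 0 = 1 := by simp [J]

lemma J_mul_right (z : G) {μ ν : G} (hμ : μ ≠ 0) (hν : ν ≠ 0) :
    J z (μ * ν) = J z μ * J z ν := by
  unfold J
  rw [prod_rel z (factors_mul hμ hν), Multiset.map_add, Multiset.prod_add]

lemma J_unit (z : G) {μ : G} (hμ : IsUnit μ) : J z μ = 1 := by
  unfold J
  rw [factors_of_isUnit hμ]; simp

lemma J_prime (z : G) {q : G} (hq : Prime q) : J z q = chi z q := by
  unfold J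
  have h : Multiset.Rel Associated (factors q) {q} :=
    factors_unique irreducible_of_factor (by simpa using hq.irreducible)
      (by simpa using factors_prod hq.ne_zero)
  rw [prod_rel z h]; simp

lemma J_prime_mul (z : G) {q a : G} (hq : Prime q) (ha : a ≠ 0) :
    J z (q * a) = chi z q * J z a := by
  rw [J_mul_right z hq.ne_zero ha, J_prime z hq]

lemma J_mul_left (z w μ : G) : J (z * w) μ = J z μ * J w μ := by
  induction μ using UniqueFactorizationMonoid.induction_on_prime with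
  | h₁ => simp [J_zero]
  | h₂ u hu => simp [J_unit _ hu]
  | h₃ a q ha hq ih => simp only [J_prime_mul _ hq ha, chi_mul hq, ih]; ring

lemma J_one_left (μ : G) : J 1 μ = 1 := by
  induction μ using UniqueFactorizationMonoid.induction_on_prime with
  | h₁ => simp [J_zero]
  | h₂ u hu => simp [J_unit _ hu]
  | h₃ a q ha hq ih => simp only [J_prime_mul _ hq ha, chi_one, ih]; ring

lemma J_pow_left (z μ : G) (n : ℕ) : J (z ^ n) μ = J z μ ^ n := by
  induction n with
  | zero => simp [J_one_left]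
  | succ n ih => rw [pow_succ, J_mul_left, ih, pow_succ]

lemma J_congr {z w μ : G} (hμ : μ ≠ 0) (h : μ ∣ z - w) : J z μ = J w μ := by
  induction μ using UniqueFactorizationMonoid.induction_on_prime with
  | h₁ => exact absurd rfl hμ
  | h₂ u hu => simp [J_unit _ hu]
  | h₃ a q ha hq ih =>
    rw [J_prime_mul _ hq ha, J_prime_mul _ hq ha, chi_congr hq ((dvd_mul_right _ _).trans h),
      ih ha ((dvd_mul_left _ _).trans h)]

lemma J_star (z μ : G) : J (star z) (star μ) = star (J z μ) := by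
  induction μ using UniqueFactorizationMonoid.induction_on_prime with
  | h₁ => simp [J_zero]
  | h₂ u hu => simp [J_unit _ hu, J_unit _ hu.star]
  | h₃ a q ha hq ih =>
    rw [star_mul', J_prime_mul _ (prime_star hq) (star_ne_zero.2 ha), J_prime_mul _ hq ha,
      chi_star hq, ih, star_mul']

lemma J_assoc (z : G) {μ ν : G} (h : Associated μ ν) : J z μ = J z ν := by
  obtain ⟨u, rfl⟩ := h
  by_cases hμ : μ = 0
  · simp [hμ]
  · rw [J_mul_right z hμ u.ne_zero, J_unit z u.isUnit, mul_one]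

lemma J_neg_right (z μ : G) : J z (-μ) = J z μ :=
  J_assoc z (Associated.neg_left (Associated.refl μ))

lemma J_coprime {z μ : G} (h : IsCoprime z μ) : ∃ k, J z μ = E k := by
  induction μ using UniqueFactorizationMonoid.induction_on_prime with
  | h₁ => exact ⟨0, by simp [J_zero]⟩
  | h₂ u hu => exact ⟨0, by simp [J_unit _ hu]⟩
  | h₃ a q ha hq ih =>
    obtain ⟨k, hk⟩ := ih h.of_mul_right_right
    have hz : ¬ q ∣ z := fun hd =>
      hq.not_isUnit (h.of_mul_right_left.isUnit_of_dvd' hd dvd_rfl)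
    obtain ⟨k', hk'⟩ := chi_unit hq hz
    exact ⟨k' + k, by rw [J_prime_mul _ hq ha, hk, hk', E_add]⟩

lemma coprime_of_J_ne_zero {z μ : G} (ho : μ.norm % 2 = 1) (h : J z μ ≠ 0) : IsCoprime z μ := by
  induction μ using UniqueFactorizationMonoid.induction_on_prime with
  | h₁ => simp at ho
  | h₂ u hu =>
    obtain ⟨v, hv⟩ := hu.exists_left_inv
    exact ⟨0, v, by simp [hv]⟩
  | h₃ a q ha hq ih =>
    rw [Zsqrtd.norm_mul] at ho
    have ho1 : q.norm % 2 = 1 := by
      rcases Int.emod_two_eq_zero_or_one q.norm with h1 | h1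
      · rw [Int.mul_emod, h1] at ho; simp at ho
      · exact h1
    have ho2 : a.norm % 2 = 1 := by
      rcases Int.emod_two_eq_zero_or_one a.norm with h1 | h1
      · rw [Int.mul_emod, h1] at ho; simp at ho
      · exact h1
    rw [J_prime_mul _ hq ha] at h
    refine IsCoprime.mul_right ?_ (ih ho2 (right_ne_zero_of_mul h))
    have hz : ¬ q ∣ z := fun hd => left_ne_zero_of_mul h (chi_zero hq ho1 hd)
    exact ((Prime.coprime_iff_not_dvd hq).2 hz).symm

lemma J_gi {μ : G} (ho : μ.norm % 2 = 1) : J gi μ = E (kq μ) := by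
  induction μ using UniqueFactorizationMonoid.induction_on_prime with
  | h₁ => simp at ho
  | h₂ u hu =>
    have : kq u = 0 := by unfold kq; rw [norm_of_isUnit u hu]; rfl
    simp [J_unit _ hu, this]
  | h₃ a q ha hq ih =>
    have ho' := ho
    rw [Zsqrtd.norm_mul] at ho
    have ho1 : q.norm % 2 = 1 := by
      rcases Int.emod_two_eq_zero_or_one q.norm with h1 | h1
      · rw [Int.mul_emod, h1] at ho; simp at ho
      · exact h1
    have ho2 : a.norm % 2 = 1 := by
      rcases Int.emod_two_eq_zero_or_one a.norm with h1 | h1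
      · rw [Int.mul_emod, h1] at ho; simp at ho
      · exact h1
    have h1 : chi gi q = E (kq q) := chi_eq hq ho1 (S_E _) (by rw [E_nat]; simp)
    rw [J_prime_mul _ hq ha, ih ho2, h1, ← E_add]
    apply E_congr'
    have e1 := kq_spec' ho'
    have e2 := kq_spec' ho1
    have e3 := kq_spec' ho2
    rw [Zsqrtd.norm_mul, e2, e3] at e1
    exact ⟨-(kq q * kq a), by linarith⟩

end Pool.Agent.Lib.MP_953685_nt
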