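import Mathlib

/-!
Definitions for MP_953685_nt: Lucas sequences, the normalisation of the odd part,
the quartic residue symbol and the quartic Jacobi symbol in the Gaussian integers.
-/

namespace Pool.Agent.Lib.MP_953685_nt

/-- Lucas sequence `U_n(b,c)`. -/
def U (b c : ℤ) : ℕ → ℤ
  | 0 => 0
  | 1 => 1
  | n + 2 => b * U b c (n + 1) - c * U b c n

/-- Lucas sequence `V_n(b,c)`. -/
def V (b c : ℤ) : ℕ → ℤ
  | 0 => 2
  | 1 => b
  | n + 2 => b * V b c (n + 1) - c * V b c n

/-- `z` is nonzero and its odd part is `1 mod 4`. -/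
def OddPartOne (z : ℤ) : Prop := ∃ (k : ℕ) (w : ℤ), z = 2 ^ k * w ∧ w % 4 = 1

/-- The Gaussian integer `i`. -/
def gi : GaussianInt := ⟨0, 1⟩

open Classical in
/-- Quartic residue symbol of `z` at a Gaussian prime `q`: the power of `i` congruent to
`z ^ ((N q - 1) / 4)` modulo `q`, and `0` if there is none. -/
noncomputable def chi (z q : GaussianInt) : GaussianInt :=
  if q ∣ z ^ ((q.norm.natAbs - 1) / 4) - 1 then 1
  else if q ∣ z ^ ((q.norm.natAbs - 1) / 4) - gi then gi
  else if q ∣ z ^ ((q.norm.natAbs - 1) / 4) + 1 then -1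
  else if q ∣ z ^ ((q.norm.natAbs - 1) / 4) + gi then -gi
  else 0

/-- Quartic Jacobi symbol: the product of `chi z q` over the Gaussian prime factors `q` of `μ`,
with multiplicity. -/
noncomputable def J (z μ : GaussianInt) : GaussianInt :=
  ((UniqueFactorizationMonoid.factors μ).map (chi z)).prod

/-- The 2-adic part of the exponent. -/
def ex (b m d x y : ℤ) : ℤ :=
  if y % 2 = 1 then (m - 1) / 4 + 2 * (b / 8 + (d + x) / 4)
  else if m % 4 = 1 then -((m - 1) / 4) + (if 4 ∣ y then 2 * (y / 4 + d / 4) else 0)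
  else (m + 1) / 4 + (if 4 ∣ y then 2 * (y / 4) else 1)

end Pool.Agent.Lib.MP_953685_nt
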