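import Pool.Agent.Lib.MP_953685_nt.Cases

/-! From symbols to Lucas sequences modulo `p`. -/

namespace Pool.Agent.Lib.MP_953685_nt

lemma lucas {R : Type*} [CommRing R] (b c : ℤ) (u v : R) (h1 : u + v = b) (h2 : u * v = c)
    (n : ℕ) : (U b c n : R) * (u - v) = u ^ n - v ^ n ∧ (V b c n : R) = u ^ n + v ^ n := by
  induction n using Nat.twoStepInduction with
  | zero => constructor <;> simp [U, V]; norm_num
  | one => constructor <;> simp [U, V, h1]
  | more n ih1 ih2 =>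
    constructor
    · simp only [U]; push_cast
      rw [← h1, ← h2]
      linear_combination (u + v) * ih2.1 - u * v * ih1.1
    · simp only [V]; push_cast
      rw [← h1, ← h2]
      linear_combination (u + v) * ih2.2 - u * v * ih1.2

lemma exists_hom {p : ℕ} [hp : Fact p.Prime] {π : G} (h : π.norm = p) :
    ∃ φ : G →+* ZMod p, φ π = 0 := by
  have h1 : (π.re : ZMod p) ^ 2 + (π.im : ZMod p) ^ 2 = 0 := by
    have := congrArg (Int.cast : ℤ → ZMod p) h
    rw [norm_eq] at this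
    push_cast at this
    simpa using this
  have h2 : (π.im : ZMod p) ≠ 0 := by
    intro h0
    rw [h0] at h1
    have h3 : (π.re : ZMod p) = 0 := by simpa using h1
    obtain ⟨a, ha⟩ := (ZMod.intCast_zmod_eq_zero_iff_dvd _ p).1 h0
    obtain ⟨b, hb⟩ := (ZMod.intCast_zmod_eq_zero_iff_dvd _ p).1 h3
    rw [norm_eq, ha, hb] at h
    have hp0 : (p : ℤ) ≠ 0 := by exact_mod_cast hp.out.ne_zero
    have h4 : (p : ℤ) * (b ^ 2 + a ^ 2) = 1 := by
      apply mul_left_cancel₀ hp0; linarith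
    have h5 : (p : ℤ) ∣ 1 := ⟨_, h4.symm⟩
    exact hp.out.one_lt.ne' (by exact_mod_cast Int.eq_one_of_dvd_one (by positivity) h5)
  refine ⟨Zsqrtd.lift ⟨-(π.re : ZMod p) / π.im, ?_⟩, ?_⟩
  · field_simp
    push_cast
    linear_combination h1
  · rw [Zsqrtd.lift_apply_apply]
    field_simp
    ring

lemma map_E {F : Type*} [Field F] (φ : G →+* F) (k : ℤ) : φ (E k) = φ gi ^ k := by
  have h4 : φ gi ^ (4 : ℤ) = 1 := by
    rw [show (4 : ℤ) = ((4 : ℕ) : ℤ) by rfl, zpow_natCast, ← map_pow, gi_pow_four, map_one]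
  have h0 : φ gi ≠ 0 := (isUnit_gi.map φ).ne_zero
  unfold E
  rw [map_pow, ← zpow_natCast, show (((k % 4).toNat : ℕ) : ℤ) = k % 4 by omega]
  conv_rhs => rw [← Int.mul_ediv_add_emod k 4, zpow_add₀ h0, zpow_mul, h4, one_zpow, one_mul]

lemma map_J {p : ℕ} [hp : Fact p.Prime] {π : G} (h : π.norm = p) (hp4 : p % 4 = 1)
    {φ : G →+* ZMod p} (hφ : φ π = 0) (z : G) : φ (J z π) = φ z ^ ((p - 1) / 4) := by
  have hq := prime_of_norm hp.out h
  obtain ⟨w, hw⟩ := chi_spec hq (by rw [h]; omega) z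
  have := congrArg φ hw
  rw [map_mul, hφ, zero_mul, map_sub, map_pow, sub_eq_zero] at this
  have hk := kq_norm h hp4
  rw [J_prime _ hq, ← this]
  congr 1; omega

lemma E_eq_pow (k : ℤ) : ∃ n : ℕ, E k = gi ^ n := ⟨_, rfl⟩

lemma sigma_eq (c d x y K s t : ℤ) :
    (⟨s * (c + K * y) + t * (x - d), s * (d + x) + t * (c - K * y)⟩ : G) =
      (s : G) * rho c d x y K + (t : G) * rhot c d x y K := by
  ext <;> simp [rho, rhot]

theorem final (p : ℕ) [hpf : Fact p.Prime] (b m c d x y : ℤ) (π μ : GaussianInt)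
    (hp : p % 4 = 1) (hb : 8 ∣ b) (hm : Odd m) (hπ : π.norm = p) (hμ : π * μ = ⟨c, d⟩)
    (hcd : IsCoprime c d) (hxy : c ^ 2 + d ^ 2 = x ^ 2 + (m + b ^ 2 / 4) * y ^ 2)
    (hco : IsCoprime (c ^ 2 + d ^ 2) (m * y)) (hpx : ¬ (p : ℤ) ∣ x)
    (hc : c % 4 = 1) (hd2 : Even d) (hd : OddPartOne d) (hx : OddPartOne x) (hy : OddPartOne y) :
    (∃ (s t : ℤ) (j r : ℕ),
      J ⟨s * (c + b / 2 * y) + t * (x - d), s * (d + x) + t * (c - b / 2 * y)⟩ (m : GaussianInt)
        = gi ^ j ∧ J (⟨b / 2 * y, x⟩ * (y : GaussianInt) ^ 3) μ = gi ^ r) ∧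
    ∀ (s t : ℤ) (j r : ℕ),
      J ⟨s * (c + b / 2 * y) + t * (x - d), s * (d + x) + t * (c - b / 2 * y)⟩ (m : GaussianInt)
        = gi ^ j → J (⟨b / 2 * y, x⟩ * (y : GaussianInt) ^ 3) μ = gi ^ r →
      (U b (-m) ((p - 1) / 4) : ZMod p) =
          (((d : ZMod p) / c) ^ ((j : ℤ) - r + ex b m d x y) - (-(m : ZMod p)) ^ ((p - 1) / 4) *
            ((d : ZMod p) / c) ^ (-((j : ℤ) - r + ex b m d x y))) * (c * y) / (2 * d * x) ∧
      (V b (-m) ((p - 1) / 4) : ZMod p) =
          ((d : ZMod p) / c) ^ ((j : ℤ) - r + ex b m d x y) + (-(m : ZMod p)) ^ ((p - 1) / 4) *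
            ((d : ZMod p) / c) ^ (-((j : ℤ) - r + ex b m d x y)) := by
  have hm' : m % 2 = 1 := Int.odd_iff.1 hm
  have hd' : d % 2 = 0 := Int.even_iff.1 hd2
  have hK : b ^ 2 / 4 = (b / 2) ^ 2 := by
    obtain ⟨K, rfl⟩ := hb
    rw [show 8 * K / 2 = 4 * K by omega, show (8 * K) ^ 2 = 4 * (4 * K) ^ 2 by ring]; omega
  have cm : IsCoprime (c ^ 2 + d ^ 2) m := hco.of_mul_right_left
  have cy : IsCoprime (c ^ 2 + d ^ 2) y := hco.of_mul_right_right
  have cyα : IsCoprime (y : G) (π * μ) := by rw [hμ]; exact (coprime_alpha cy).symm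
  have sα : Semi ⟨c, d⟩ := ⟨by simp only; omega, hd'⟩
  have π0 : π ≠ 0 := (prime_of_norm hpf.out hπ).ne_zero
  have μ0 : μ ≠ 0 := by
    rintro rfl
    rw [mul_zero] at hμ
    exact sα.ne_zero hμ.symm
  constructor
  · obtain ⟨t, ht⟩ := exists_sigma (K := b / 2) (hK ▸ hxy) hm' (dvd_mul_right _ _) cm
    obtain ⟨j, hj⟩ := J_coprime ht
    have cθ : IsCoprime (⟨b / 2 * y, x⟩ : G) (π * μ) := by
      rw [hμ]
      have c1 : IsCoprime (((m * y) * y : ℤ) : G) (⟨c, d⟩ : G) :=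
        (coprime_alpha (hco.mul_right cy)).symm
      have e : (⟨b / 2 * y, x⟩ : G) * star (⟨b / 2 * y, x⟩ : G) =
          -(((m * y) * y : ℤ) : G) + (⟨c, d⟩ : G) * star (⟨c, d⟩ : G) := by
        rw [← Zsqrtd.norm_eq_mul_conj, ← Zsqrtd.norm_eq_mul_conj, norm_eq, norm_eq,
          ← Int.cast_neg, ← Int.cast_add]
        congr 1
        rw [hK] at hxy
        simp only
        linear_combination -hxy
      have c2 : IsCoprime ((⟨b / 2 * y, x⟩ : G) * star (⟨b / 2 * y, x⟩ : G)) (⟨c, d⟩ : G) := by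
        rw [e]; exact c1.neg_left.add_mul_left_left _
      exact c2.of_mul_left_left
    obtain ⟨r, hr⟩ := J_coprime
      ((cθ.of_mul_right_right).mul_left (cyα.of_mul_right_right.pow_left (m := 3)))
    obtain ⟨j', hj'⟩ := E_eq_pow j
    obtain ⟨r', hr'⟩ := E_eq_pow r
    refine ⟨1, t, j', r', ?_, hr.trans hr'⟩
    rw [sigma_eq, Int.cast_one, one_mul, hj, hj']
  · intro s t j r hj hr
    rw [sigma_eq, ← E_nat] at hj
    rw [← E_nat] at hr
    have M := master hb hm' hc hd' hd hx hy hcd hxy hco hj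
    obtain ⟨a, ha⟩ := J_coprime cyα.of_mul_right_right
    rw [J_mul_left, J_pow_left, ha] at hr
    rw [← hμ, J_mul_right _ π0 μ0, J_mul_right _ π0 μ0, ha] at M
    have M2 : J ⟨b / 2 * y, x⟩ π = E ((j : ℤ) - r + ex b m d x y) * J (y : G) π := by
      apply mul_right_cancel₀ (E_ne_zero r)
      have e1 : E ((j : ℤ) - r + ex b m d x y) * E r = E (j + ex b m d x y) := by
        rw [← E_add]; congr 1; ring
      have e2 : E a ^ 4 = 1 := by
        rw [E_pow, ← E_zero]; apply E_congr; push_cast; omega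
      linear_combination (-J ⟨b / 2 * y, x⟩ π) * hr + E a ^ 3 * M - J (y : G) π * e1
        + E (j + ex b m d x y) * J (y : G) π * e2
    obtain ⟨φ, hφ⟩ := exists_hom hπ
    have hι : φ gi * φ gi = -1 := by rw [← map_mul, gi_mul_gi, map_neg, map_one]
    have hφz : ∀ u v : ℤ, φ ⟨u, v⟩ = u + v * φ gi := fun u v => by
      conv_lhs => rw [G_eq ⟨u, v⟩]
      simp only [map_add, map_mul, map_intCast]
    have h1 : (c : ZMod p) + d * φ gi = 0 := by rw [← hφz, ← hμ, map_mul, hφ, zero_mul]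
    have h1' : (c : ZMod p) * φ gi = d := by linear_combination φ gi * h1 - (d : ZMod p) * hι
    have hN : (c : ZMod p) ^ 2 + (d : ZMod p) ^ 2 = 0 := by
      linear_combination ((c : ZMod p) - d * φ gi) * h1 + (d : ZMod p) ^ 2 * hι
    have c0 : (c : ZMod p) ≠ 0 := fun h0 => by
      obtain ⟨u, v, huv⟩ := hcd
      have := congrArg (Int.cast : ℤ → ZMod p) huv
      push_cast at this
      rw [← h1', h0] at this
      simp at this
    have ι0 : φ gi ≠ 0 := (isUnit_gi.map φ).ne_zero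
    have d0 : (d : ZMod p) ≠ 0 := by rw [← h1']; exact mul_ne_zero c0 ι0
    have y0 : (y : ZMod p) ≠ 0 := fun h0 => by
      obtain ⟨u, v, huv⟩ := cy
      have := congrArg (Int.cast : ℤ → ZMod p) huv
      push_cast at this
      rw [hN, h0] at this
      simp at this
    have x0 : (x : ZMod p) ≠ 0 := fun h0 => hpx ((ZMod.intCast_zmod_eq_zero_iff_dvd _ p).1 h0)
    have two0 : (2 : ZMod p) ≠ 0 := two_ne_zero_of_charP (ZMod p) hpf.out (by omega)
    have hdc : (d : ZMod p) / c = φ gi := by rw [← h1']; field_simp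
    have M3 := congrArg φ M2
    rw [map_mul, map_J hπ hp hφ, map_J hπ hp hφ, map_E, hφz, map_intCast] at M3
    rw [hdc]
    generalize (j : ℤ) - r + ex b m d x y = e at M3 ⊢
    generalize (p - 1) / 4 = n at M3 ⊢
    have hrel := congrArg (Int.cast : ℤ → ZMod p) hxy
    rw [hK] at hrel
    have hb2 : (b : ZMod p) = 2 * ((b / 2 : ℤ) : ZMod p) := by
      have : b = 2 * (b / 2) := by omega
      conv_lhs => rw [this]
      push_cast; ring
    push_cast at hrel M3
    rw [hN] at hrel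
    generalize ((b / 2 : ℤ) : ZMod p) = K at hrel M3 hb2
    obtain ⟨L1, L2⟩ := lucas b (-m) (K + φ gi * x / y) (K - φ gi * x / y) (by rw [hb2]; ring)
      (by
        push_cast
        field_simp
        linear_combination -hrel - (x : ZMod p) ^ 2 * hι) n
    have P1 : (K + φ gi * x / y) ^ n = φ gi ^ e := by
      apply mul_right_cancel₀ (pow_ne_zero n y0)
      rw [← M3, ← mul_pow]
      congr 1
      field_simp
    have P2 : (K - φ gi * x / y) ^ n = (-(m : ZMod p)) ^ n * φ gi ^ (-e) := by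
      apply mul_left_cancel₀ (zpow_ne_zero e ι0)
      rw [mul_left_comm, ← zpow_add₀ ι0, add_neg_cancel, zpow_zero, mul_one, ← P1, ← mul_pow]
      congr 1
      field_simp
      linear_combination -hrel - (x : ZMod p) ^ 2 * hι
    rw [P1, P2] at L1 L2
    refine ⟨?_, L2⟩
    rw [← L1, ← h1']
    field_simp
    ring

end Pool.Agent.Lib.MP_953685_nt
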