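import Pool.Agent.Lib.MP_953685_nt.Chi

/-! Quartic reciprocity between a split Gaussian prime and a rational prime (Gauss sums). -/

namespace Pool.Agent.Lib.MP_953685_nt

open Finset

lemma prime_of_norm {π : G} {p : ℕ} (hp : p.Prime) (h : π.norm = p) : Prime π := by
  have hirr : Irreducible π := by
    refine ⟨fun hu => ?_, fun a b hab => ?_⟩
    · have := norm_of_isUnit π hu
      rw [h] at this
      exact hp.ne_one (by exact_mod_cast this)
    · have h1 : a.norm.natAbs * b.norm.natAbs = p := by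
        rw [← Int.natAbs_mul, ← Zsqrtd.norm_mul, ← hab, h, Int.natAbs_natCast]
      have ha := norm_nonneg' a
      have hb := norm_nonneg' b
      rcases (Nat.prime_mul_iff.1 (h1 ▸ hp)) with ⟨_, h2⟩ | ⟨_, h2⟩
      · right; exact isUnit_of_norm b (by omega)
      · left; exact isUnit_of_norm a (by omega)
  exact hirr.prime

lemma mul_star_eq {π : G} {p : ℕ} (h : π.norm = p) : π * star π = (p : G) := by
  rw [← Zsqrtd.norm_eq_mul_conj, h]; simp

lemma dvd_of_norm {π : G} {p : ℕ} (h : π.norm = p) : π ∣ (p : G) :=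
  ⟨star π, (mul_star_eq h).symm⟩

section char
variable {p : ℕ} [hpf : Fact p.Prime] {π : G}

lemma chi_int_congr (h : π.norm = p) {a b : ℤ} (hab : (a : ZMod p) = b) :
    chi (a : G) π = chi (b : G) π := by
  refine chi_congr (prime_of_norm hpf.out h) ((dvd_of_norm h).trans ?_)
  obtain ⟨c, hc⟩ := (ZMod.intCast_eq_intCast_iff_dvd_sub b a p).1 hab.symm
  refine ⟨(c : G), ?_⟩
  rw [← Int.cast_sub, hc]; push_cast; ring

/-- the quartic character of `ZMod p` attached to `π` -/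
noncomputable def qc (h : π.norm = p) (hp : p % 4 = 1) : MulChar (ZMod p) G where
  toFun a := chi (((a.val : ℕ) : ℤ) : G) π
  map_one' := by
    rw [chi_int_congr h (b := 1) (by simp)]
    simp [chi_one]
  map_mul' a b := by
    rw [← chi_mul (prime_of_norm hpf.out h), ← Int.cast_mul]
    exact chi_int_congr h (by simp)
  map_nonunit' a ha := by
    have : a = 0 := by
      by_contra h0
      exact ha (Ne.isUnit h0)
    subst this
    exact chi_zero (prime_of_norm hpf.out h) (by rw [h]; omega) (by simp)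

lemma qc_apply (h : π.norm = p) (hp : p % 4 = 1) (a : ZMod p) :
    qc h hp a = chi (((a.val : ℕ) : ℤ) : G) π := rfl

lemma qc_int (h : π.norm = p) (hp : p % 4 = 1) (a : ℤ) :
    qc h hp (a : ZMod p) = chi (a : G) π := by
  rw [qc_apply]; exact chi_int_congr h (by simp)

lemma qc_E (h : π.norm = p) (hp : p % 4 = 1) {a : ZMod p} (ha : a ≠ 0) :
    ∃ k, qc h hp a = E k := by
  rcases chi_S (((a.val : ℕ) : ℤ) : G) π with h0 | h0
  · exfalso
    have := (Ne.isUnit ha).map (qc h hp)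
    rw [qc_apply, h0] at this
    exact not_isUnit_zero this
  · exact h0

lemma qc_pow_four (h : π.norm = p) (hp : p % 4 = 1) : qc h hp ^ 4 = 1 := by
  ext a
  all_goals
    obtain ⟨k, hk⟩ := qc_E h hp a.ne_zero
    rw [MulChar.pow_apply_coe, MulChar.one_apply_coe, hk, E_pow,
      E_congr (show ((4 : ℕ) * k) % 4 = 0 % 4 by push_cast; omega), E_zero]

lemma qc_inv (h : π.norm = p) (hp : p % 4 = 1) (a : ZMod p) :
    (qc h hp)⁻¹ a = star (qc h hp a) := by
  rw [MulChar.inv_apply']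
  by_cases ha : a = 0
  · subst ha; rw [inv_zero, MulChar.map_zero, star_zero]
  · obtain ⟨k, hk⟩ := qc_E h hp ha
    have h1 : qc h hp a * qc h hp a⁻¹ = 1 := by rw [← map_mul, mul_inv_cancel₀ ha, map_one]
    rw [hk] at h1
    rw [hk, star_E]
    exact mul_left_cancel₀ (E_ne_zero k) (h1.trans (E_mul_neg k).symm)

omit hpf in
lemma kq_norm (h : π.norm = p) (hp : p % 4 = 1) : p = 4 * kq π + 1 := by
  have := kq_spec' (q := π) (by rw [h]; omega)
  rw [h] at this
  exact_mod_cast this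

lemma qc_sq (h : π.norm = p) (hp : p % 4 = 1) :
    ∃ a : (ZMod p)ˣ, qc h hp a * qc h hp a = -1 := by
  have hp2 : ringChar (ZMod p) ≠ 2 := by
    rw [ZMod.ringChar_zmod_n]; omega
  obtain ⟨a, ha⟩ := FiniteField.exists_nonsquare hp2
  have ha0 : a ≠ 0 := by
    rintro rfl; exact ha IsSquare.zero
  have h1 : a ^ (p / 2) = -1 := by
    rcases ZMod.pow_div_two_eq_neg_one_or_one p ha0 with h1 | h1
    · exact absurd ((ZMod.euler_criterion p ha0).2 h1) ha
    · exact h1
  refine ⟨Units.mk0 a ha0, ?_⟩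
  rw [Units.val_mk0, qc_apply, ← chi_mul (prime_of_norm hpf.out h)]
  refine chi_eq (prime_of_norm hpf.out h) (by rw [h]; omega) (E_two ▸ S_E 2)
    ((dvd_of_norm h).trans ?_)
  have hk := kq_norm h hp
  have h2 : p / 2 = 2 * kq π := by omega
  have h3 : (((((a.val : ℕ) : ℤ) * ((a.val : ℕ) : ℤ)) ^ kq π + 1 : ℤ) : ZMod p) = 0 := by
    push_cast
    rw [ZMod.natCast_val, ZMod.cast_id, ← pow_two, ← pow_mul, ← h2, h1]; ring
  obtain ⟨c, hc⟩ := (ZMod.intCast_zmod_eq_zero_iff_dvd _ p).1 h3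
  refine ⟨(c : G), ?_⟩
  have := congrArg (Int.cast : ℤ → G) hc
  push_cast at this ⊢
  linear_combination this

lemma comp_sq_ne_one (h : π.norm = p) (hp : p % 4 = 1) {K : Type*} [Field K] (φ : G →+* K)
    (h2 : (2 : K) ≠ 0) : (qc h hp).ringHomComp φ * (qc h hp).ringHomComp φ ≠ 1 := by
  obtain ⟨a, ha⟩ := qc_sq h hp
  rw [MulChar.ne_one_iff]
  refine ⟨a, fun h1 => h2 ?_⟩
  rw [MulChar.mul_apply, MulChar.ringHomComp_apply, ← map_mul, ha, map_neg, map_one] at h1
  linear_combination -h1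

lemma comp_ne_one (h : π.norm = p) (hp : p % 4 = 1) {K : Type*} [Field K] (φ : G →+* K)
    (h2 : (2 : K) ≠ 0) : (qc h hp).ringHomComp φ ≠ 1 := fun h1 =>
  comp_sq_ne_one h hp φ h2 (by rw [h1, mul_one])

lemma jac_norm (h : π.norm = p) (hp : p % 4 = 1) :
    (jacobiSum (qc h hp) (qc h hp)).norm = p := by
  have hinj : Function.Injective GaussianInt.toComplex := GaussianInt.toComplex_injective
  have hc : ringChar ℂ ≠ ringChar (ZMod p) := by
    rw [ZMod.ringChar_zmod_n, ringChar.eq_zero]; omega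
  have h1 := jacobiSum_mul_jacobiSum_inv hc (comp_ne_one h hp GaussianInt.toComplex two_ne_zero)
    (comp_ne_one h hp GaussianInt.toComplex two_ne_zero)
    (comp_sq_ne_one h hp GaussianInt.toComplex two_ne_zero)
  rw [MulChar.ringHomComp_inv, jacobiSum_ringHomComp, jacobiSum_ringHomComp, ← map_mul,
    ZMod.card, ← map_natCast GaussianInt.toComplex] at h1
  have h2 := hinj h1
  have h3 : jacobiSum (qc h hp)⁻¹ (qc h hp)⁻¹ = star (jacobiSum (qc h hp) (qc h hp)) := by
    unfold jacobiSum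
    rw [star_sum]
    exact Finset.sum_congr rfl fun x _ => by rw [qc_inv, qc_inv, star_mul']
  rw [h3, ← Zsqrtd.norm_eq_mul_conj] at h2
  have h4 := congrArg Zsqrtd.re h2
  simpa using h4

lemma sum_pow_zero {k : ℕ} (hk : p = 4 * k + 1) :
    ∑ t : ZMod p, t ^ k * (1 - t) ^ k = 0 := by
  have h1 : ∀ t : ZMod p, t ^ k * (1 - t) ^ k =
      ∑ j ∈ range (k + 1), ((-1) ^ j * (k.choose j : ZMod p)) * t ^ (k + j) := by
    intro t
    rw [show (1 - t) = (-t) + 1 by ring, add_pow, Finset.mul_sum]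
    exact Finset.sum_congr rfl fun j _ => by rw [neg_pow]; ring
  simp_rw [h1]
  rw [Finset.sum_comm]
  refine Finset.sum_eq_zero fun j hj => ?_
  rw [← Finset.mul_sum, FiniteField.sum_pow_lt_card_sub_one, mul_zero]
  have := hpf.out.two_le
  rw [ZMod.card]
  rw [Finset.mem_range] at hj
  omega

lemma jac_dvd (h : π.norm = p) (hp : p % 4 = 1) : π ∣ jacobiSum (qc h hp) (qc h hp) := by
  have hq := prime_of_norm hpf.out h
  have ho : π.norm % 2 = 1 := by rw [h]; omega
  have h1 : π ∣ ((∑ t : ZMod p, ((t.val : ℕ) : ℤ) ^ kq π * (((1 - t).val : ℕ) : ℤ) ^ kq π : ℤ) :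
      G) := by
    refine (dvd_of_norm h).trans ?_
    have h3 : ((∑ t : ZMod p, ((t.val : ℕ) : ℤ) ^ kq π * (((1 - t).val : ℕ) : ℤ) ^ kq π : ℤ) :
        ZMod p) = 0 := by
      rw [← sum_pow_zero (kq_norm h hp)]
      push_cast
      simp only [ZMod.natCast_val, ZMod.cast_id]
    obtain ⟨c, hc⟩ := (ZMod.intCast_zmod_eq_zero_iff_dvd _ p).1 h3
    exact ⟨(c : G), by rw [hc]; push_cast; ring⟩
  have h2 : π ∣ ((∑ t : ZMod p, ((t.val : ℕ) : ℤ) ^ kq π * (((1 - t).val : ℕ) : ℤ) ^ kq π : ℤ) :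
      G) - jacobiSum (qc h hp) (qc h hp) := by
    unfold jacobiSum
    rw [Int.cast_sum, ← Finset.sum_sub_distrib]
    refine Finset.dvd_sum fun t _ => ?_
    rw [qc_apply, qc_apply]
    have e1 := chi_spec hq ho (((t.val : ℕ) : ℤ) : G)
    have e2 := chi_spec hq ho ((((1 - t).val : ℕ) : ℤ) : G)
    have := dvd_add (e1.mul_right (((((1 - t).val : ℕ) : ℤ) : G) ^ kq π))
      (e2.mul_left (chi (((t.val : ℕ) : ℤ) : G) π))
    convert this using 1
    rw [Int.cast_mul, Int.cast_pow, Int.cast_pow]; ring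
  have := dvd_sub h1 h2
  simpa using this

lemma gi_primitive : IsPrimitiveRoot gi 4 := by
  refine IsPrimitiveRoot.mk_of_lt gi (by norm_num) gi_pow_four fun l h0 h4 => ?_
  interval_cases l
  · intro h; have := congrArg Zsqrtd.re h; simp at this
  · intro h; rw [gi_sq] at h; have := congrArg Zsqrtd.re h; simp at this
  · intro h; rw [pow_succ, gi_sq] at h; have := congrArg Zsqrtd.re h; simp at this

lemma jac_sq (h : π.norm = p) (hp : p % 4 = 1) (hi : π.im % 2 = 0) :
    jacobiSum (qc h hp) (qc h hp) ^ 2 = π ^ 2 := by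
  obtain ⟨β, hβ⟩ := jac_dvd h hp
  have hn := jac_norm h hp
  obtain ⟨z, -, hz⟩ := exists_jacobiSum_eq_neg_one_add (n := 4) (by norm_num) (qc_pow_four h hp)
    (qc_pow_four h hp) (by rw [ZMod.card]; omega) gi_primitive
  rw [hβ] at hn hz ⊢
  have hp0 : (p : ℤ) ≠ 0 := by exact_mod_cast hpf.out.ne_zero
  rw [Zsqrtd.norm_mul, h] at hn
  have hb : β.norm = 1 := mul_left_cancel₀ hp0 (by rw [hn, mul_one])
  rw [norm_eq] at hb h
  have him := congrArg Zsqrtd.im hz
  simp [pow_two] at him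
  have hre : π.re % 2 = 1 := by
    rcases Int.emod_two_eq_zero_or_one π.re with h1 | h1
    · exfalso
      obtain ⟨a, ha⟩ : ∃ a, π.re = 2 * a := ⟨π.re / 2, by omega⟩
      obtain ⟨b, hb⟩ : ∃ b, π.im = 2 * b := ⟨π.im / 2, by omega⟩
      rw [ha, hb] at h
      have : (p : ℤ) = 4 * (a ^ 2 + b ^ 2) := by rw [← h]; ring
      omega
    · exact h1
  have h1 : β.im = 0 := by
    have h2 : β.im ^ 2 ≤ 1 := by nlinarith [sq_nonneg β.re]
    have h3 : -1 ≤ β.im := by nlinarith
    have h4 : β.im ≤ 1 := by nlinarith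
    have h5 : β.im = -1 ∨ β.im = 0 ∨ β.im = 1 := by omega
    rcases h5 with h5 | h5 | h5
    · have : β.re = 0 := by rw [h5] at hb; nlinarith
      rw [h5, this] at him; omega
    · exact h5
    · have : β.re = 0 := by rw [h5] at hb; nlinarith
      rw [h5, this] at him; omega
  have h2 : β ^ 2 = 1 := by
    rw [h1] at hb
    ext
    · simp [pow_two, h1]; linarith
    · simp [pow_two, h1]
  rw [mul_pow, h2, mul_one]

section field
variable {K : Type*} [Field K] (φ : G →+* K) {ψ : AddChar (ZMod p) K}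

lemma gauss_four (h : π.norm = p) (hp : p % 4 = 1) (hi : π.im % 2 = 0) (h2 : (2 : K) ≠ 0)
    (hψ : ψ.IsPrimitive) :
    gaussSum ((qc h hp).ringHomComp φ) ψ ^ 4 = φ π ^ 3 * φ (star π) := by
  set χ := (qc h hp).ringHomComp φ with hχ
  have hne := comp_sq_ne_one h hp φ h2
  have e1 := jacobiSum_mul_nontrivial hne ψ
  have hq : (χ * χ).IsQuadratic := by
    rw [MulChar.isQuadratic_iff_sq_eq_one, ← pow_two, ← pow_mul, hχ, MulChar.ringHomComp_pow,
      qc_pow_four, MulChar.ringHomComp_one]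
  have e2 := gaussSum_sq hne hq hψ
  have e3 : (χ * χ) (-1) = 1 := by
    rw [MulChar.mul_apply, ← map_mul]; simp
  rw [← hχ] at e1 e2
  rw [e3, one_mul, ZMod.card] at e2
  have e4 : jacobiSum χ χ ^ 2 = φ π ^ 2 := by
    rw [hχ, jacobiSum_ringHomComp, ← map_pow, jac_sq h hp hi, map_pow]
  have e5 : (p : K) = φ π * φ (star π) := by rw [← map_mul, mul_star_eq h, map_natCast]
  calc gaussSum χ ψ ^ 4 = (gaussSum χ ψ * gaussSum χ ψ) ^ 2 := by ring
    _ = gaussSum (χ * χ) ψ ^ 2 * jacobiSum χ χ ^ 2 := by rw [← e1]; ring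
    _ = _ := by rw [e2, e4, e5]; ring

lemma pow_mod_four (h : π.norm = p) (hp : p % 4 = 1) (n : ℕ) :
    (qc h hp).ringHomComp φ ^ n = (qc h hp).ringHomComp φ ^ (n % 4) := by
  have : (qc h hp).ringHomComp φ ^ 4 = 1 := by
    rw [MulChar.ringHomComp_pow, qc_pow_four, MulChar.ringHomComp_one]
  conv_lhs => rw [← Nat.div_add_mod n 4, pow_add, pow_mul, this, one_pow, one_mul]

variable (l : ℕ) [Fact l.Prime] [CharP K l]

lemma gauss_one (h : π.norm = p) (hp : p % 4 = 1) (hi : π.im % 2 = 0) (h2 : (2 : K) ≠ 0)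
    (hψ : ψ.IsPrimitive) (hl0 : (l : ZMod p) ≠ 0) (hp0 : (p : K) ≠ 0) {k : ℕ}
    (hl : l = 4 * k + 1) :
    φ (chi (l : G) π) * (φ π ^ 3 * φ (star π)) ^ k = 1 := by
  set χ := (qc h hp).ringHomComp φ with hχ
  have hg : gaussSum χ ψ ≠ 0 :=
    gaussSum_ne_zero_of_nontrivial (by rwa [ZMod.card]) (comp_ne_one h hp φ h2) hψ
  have e1 := gaussSum_frob l χ ψ
  rw [hχ, pow_mod_four, show l % 4 = 1 by omega, pow_one, ← hχ, AddChar.pow_mulShift] at e1
  have e2 := gaussSum_mulShift χ ψ (Units.mk0 _ hl0)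
  rw [Units.val_mk0, ← e1] at e2
  have e3 : χ l = φ (chi (l : G) π) := by
    rw [hχ, MulChar.ringHomComp_apply, ← Int.cast_natCast, qc_int]; simp
  rw [← gauss_four φ h hp hi h2 hψ, ← hχ, ← e3]
  apply mul_right_cancel₀ hg
  rw [one_mul]
  conv_rhs => rw [← e2, hl]
  rw [← hl]
  conv_rhs => rw [hl]
  rw [← hl, mul_assoc, ← pow_mul, ← pow_succ, ← hl]

lemma gauss_three (h : π.norm = p) (hp : p % 4 = 1) (hi : π.im % 2 = 0) (h2 : (2 : K) ≠ 0)
    (hψ : ψ.IsPrimitive) (hl0 : (l : ZMod p) ≠ 0) {k : ℕ} (hl : l + 1 = 4 * k) :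
    (φ π ^ 3 * φ (star π)) ^ k = φ (chi (-(l : G)) π) * (p : K) := by
  set χ := (qc h hp).ringHomComp φ with hχ
  have e0 : χ ^ 3 = χ⁻¹ := by
    refine (inv_eq_of_mul_eq_one_right ?_).symm
    rw [← pow_succ', hχ, MulChar.ringHomComp_pow, qc_pow_four, MulChar.ringHomComp_one]
  have e1 := gaussSum_frob l χ ψ
  rw [hχ, pow_mod_four, show l % 4 = 3 by omega, ← hχ, e0, AddChar.pow_mulShift] at e1
  have e2 := gaussSum_mulShift_eq χ⁻¹ ψ⁻¹ (Units.mk0 _ (neg_ne_zero.2 hl0))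
  have e4 : ψ⁻¹.mulShift (-(l : ZMod p)) = ψ.mulShift l := by
    ext x
    simp [AddChar.inv_apply]
  rw [Units.val_mk0, inv_inv, e4, ← e1] at e2
  have e3 : χ (-(l : ZMod p)) = φ (chi (-(l : G)) π) := by
    rw [hχ, MulChar.ringHomComp_apply, ← Int.cast_natCast, ← Int.cast_neg, qc_int]; simp
  have e5 := gaussSum_mul_gaussSum_eq_card (comp_ne_one h hp φ h2) hψ
  rw [← hχ, ZMod.card] at e5
  rw [← gauss_four φ h hp hi h2 hψ, ← hχ, ← e3, ← pow_mul, ← hl, pow_succ, e2, ← e5]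
  ring

end field

/-- A field of characteristic `l` over the residue field at `q` with a primitive additive
character of `ZMod p`. -/
lemma exists_field {q : G} (hq : Prime q) {l : ℕ} (hl : l.Prime) (hql : q ∣ (l : G))
    (hne : l ≠ p) :
    ∃ (K : Type) (_ : Field K) (_ : CharP K l) (φ : G →+* K) (ψ : AddChar (ZMod p) K),
      ψ.IsPrimitive ∧ ∀ a b : G, φ a = φ b ↔ q ∣ a - b := by
  have hmax : (Ideal.span {q}).IsMaximal := PrincipalIdealRing.isMaximal_of_irreducible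
    hq.irreducible
  let _ : Field (G ⧸ Ideal.span {q}) := Ideal.Quotient.field _
  have hch : CharP (G ⧸ Ideal.span {q}) l := charP_quot hq hl hql
  have hc : ringChar (G ⧸ Ideal.span {q}) ≠ ringChar (ZMod p) := by
    rw [ZMod.ringChar_zmod_n, ringChar.eq _ l]; exact hne
  let ψ := AddChar.FiniteField.primitiveChar (ZMod p) (G ⧸ Ideal.span {q}) hc
  let K := CyclotomicField ψ.n (G ⧸ Ideal.span {q})
  have hinj := (algebraMap (G ⧸ Ideal.span {q}) K).injective
  refine ⟨K, inferInstance, charP_of_injective_ringHom hinj l,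
    (algebraMap (G ⧸ Ideal.span {q}) K).comp (Ideal.Quotient.mk _), ψ.char, ψ.prim, fun a b => ?_⟩
  rw [RingHom.comp_apply, RingHom.comp_apply, hinj.eq_iff, mk_eq_iff]

lemma two_ne_zero_of_charP (K : Type*) [Field K] {l : ℕ} (hl : l.Prime) [CharP K l]
    (ho : l % 2 = 1) : (2 : K) ≠ 0 := by
  intro h
  have : l ∣ 2 := (CharP.cast_eq_zero_iff K l 2).1 (by exact_mod_cast h)
  have := (Nat.prime_dvd_prime_iff_eq hl Nat.prime_two).1 this
  omega

lemma cast_ne_zero_of_ne (K : Type*) [Field K] {l r : ℕ} (hl : l.Prime) [CharP K l]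
    (hr : r.Prime) (hne : l ≠ r) : (r : K) ≠ 0 := fun h =>
  hne ((Nat.prime_dvd_prime_iff_eq hl hr).1 ((CharP.cast_eq_zero_iff K l r).1 h))

theorem recip_split (h : π.norm = p) (hp : p % 4 = 1) (hi : π.im % 2 = 0) {l : ℕ} (hl : l.Prime)
    (hl4 : l % 4 = 1) (hne : l ≠ p) : chi (l : G) π = J π (l : G) := by
  have := Fact.mk hl
  obtain ⟨a, b, hab⟩ := Nat.Prime.sq_add_sq (p := l) (by omega)
  let q : G := ⟨a, b⟩
  have hn : q.norm = l := by rw [norm_eq, ← hab]; simp [q]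
  have hq := prime_of_norm hl hn
  have ho : q.norm % 2 = 1 := by rw [hn]; omega
  obtain ⟨K, _, _, φ, ψ, hψ, hφ⟩ := exists_field (p := p) hq hl (dvd_of_norm hn) hne
  have hp0 : (p : K) ≠ 0 := cast_ne_zero_of_ne K hl hpf.out hne
  have e := gauss_one φ l h hp hi (two_ne_zero_of_charP K hl (by omega)) hψ
    (cast_ne_zero_of_ne (ZMod p) hpf.out hl hne.symm) hp0 (kq_norm hn hl4)
  have e5 : (p : K) = φ π * φ (star π) := by rw [← map_mul, mul_star_eq h, map_natCast]
  have n1 : ¬ q ∣ π := fun hd => by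
    have : φ π = φ 0 := (hφ _ _).2 (by simpa using hd)
    rw [e5, this] at hp0; simp at hp0
  have n2 : ¬ q ∣ star π := fun hd => by
    have : φ (star π) = φ 0 := (hφ _ _).2 (by simpa using hd)
    rw [e5, this] at hp0; simp at hp0
  obtain ⟨s, hs⟩ := chi_unit hq n1
  obtain ⟨t, ht⟩ := chi_unit hq n2
  have c1 := (hφ _ _).2 (chi_spec hq ho π)
  have c2 := (hφ _ _).2 (chi_spec hq ho (star π))
  rw [map_pow] at c1 c2
  rw [hs] at c1
  rw [ht] at c2
  rw [mul_pow, ← pow_mul, mul_comm 3, pow_mul, c1, c2] at e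
  rw [← mul_star_eq hn, J_mul_right _ hq.ne_zero (prime_star hq).ne_zero, J_prime _ hq,
    J_prime _ (prime_star hq), mul_star_eq hn]
  have c3 : chi π (star q) = E (-t) := by
    rw [← star_E, ← ht, ← chi_star hq, star_star]
  rw [c3, hs, ← E_add]
  refine S_inj hq ho (chi_S _ _) (S_E _) ((hφ _ _).1 ?_)
  have c4 : φ (E s) ^ 3 * φ (E t) * φ (E (s + -t)) = 1 := by
    rw [← map_pow, ← map_mul, ← map_mul, E_pow, ← E_add, ← E_add,
      E_congr (show (((3 : ℕ) : ℤ) * s + t + (s + -t)) % 4 = 0 % 4 by push_cast; omega), E_zero,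
      map_one]
  linear_combination φ (E (s + -t)) * e - φ (chi (l : G) π) * c4

theorem recip_inert (h : π.norm = p) (hp : p % 4 = 1) (hi : π.im % 2 = 0) {l : ℕ} (hl : l.Prime)
    (hl4 : l % 4 = 3) : chi (-(l : G)) π = J π (l : G) := by
  have := Fact.mk hl
  have hne : l ≠ p := by omega
  have hq : Prime (l : G) := GaussianInt.prime_of_nat_prime_of_mod_four_eq_three l hl4
  have hn : (l : G).norm = (l : ℤ) ^ 2 := by rw [norm_eq]; simp
  obtain ⟨k, hk⟩ : ∃ k, l = 4 * k + 3 := ⟨l / 4, by omega⟩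
  have ho : (l : G).norm % 2 = 1 := by
    rw [hn, hk]; push_cast; ring_nf; omega
  obtain ⟨K, _, _, φ, ψ, hψ, hφ⟩ := exists_field (p := p) hq hl dvd_rfl hne
  have hp0 : (p : K) ≠ 0 := cast_ne_zero_of_ne K hl hpf.out hne
  have e := gauss_three φ l h hp hi (two_ne_zero_of_charP K hl (by omega)) hψ
    (cast_ne_zero_of_ne (ZMod p) hpf.out hl hne.symm) (k := k + 1) (by omega)
  have e5 : (p : K) = φ π * φ (star π) := by rw [← map_mul, mul_star_eq h, map_natCast]
  have f := frob_three φ l hl4 π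
  have hkq : kq (l : G) = (4 * k + 2) * (k + 1) := by
    have := kq_spec' ho
    rw [hn] at this
    have h2 : ((l : ℤ)) = 4 * k + 3 := by exact_mod_cast hk
    rw [h2] at this
    have h3 : (kq (l : G) : ℤ) = (4 * k + 2) * (k + 1) := by linarith
    exact_mod_cast h3
  rw [J_prime _ hq]
  refine (chi_eq hq ho (chi_S _ _) ((hφ _ _).1 ?_)).symm
  apply mul_right_cancel₀ hp0
  rw [← e, map_pow, hkq, e5, ← f]
  conv_lhs => rw [hk]
  conv_rhs => rw [hk]
  ring

end char

end Pool.Agent.Lib.MP_953685_nt
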