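import Pool.Agent.Lib.MP_953685_nt.Recip

/-! The key computation, without any gcd side condition. -/

namespace Pool.Agent.Lib.MP_953685_nt

lemma decomp (β : G) (hre : β.re % 2 = 1) :
    ∃ (g : ℤ) (β1 : G), g % 4 = 1 ∧ β = (g : G) * β1 ∧ IsCoprime β1.re β1.im := by
  have h0 : 0 < Int.gcd β.re β.im := Int.gcd_pos_of_ne_zero_left _ (by omega)
  obtain ⟨u, v, h1, h2, h3⟩ := Int.exists_gcd_one h0
  have hc : IsCoprime u v := Int.isCoprime_iff_gcd_eq_one.2 h1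
  set g : ℤ := (Int.gcd β.re β.im : ℤ) with hg
  have ho : g % 2 = 1 := by
    rcases Int.emod_two_eq_zero_or_one g with h | h
    · rw [h2, Int.mul_emod, h] at hre; simp at hre
    · exact h
  by_cases h4 : g % 4 = 1
  · refine ⟨g, ⟨u, v⟩, h4, ?_, hc⟩
    ext
    · simp; linarith
    · simp; linarith
  · refine ⟨-g, ⟨-u, -v⟩, by omega, ?_, hc.neg_neg⟩
    ext
    · simp; linarith
    · simp; linarith

lemma coprime_two_int {g : ℤ} (h : g % 2 = 1) : IsCoprime 2 g :=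
  ⟨-(g / 2), 1, by omega⟩

lemma coprime_two {β : G} (h : Semi β) : IsCoprime 2 β := by
  have := coprime_cast (coprime_two_int h.norm_odd)
  rw [Zsqrtd.norm_eq_mul_conj] at this
  simpa using this.of_mul_right_left

lemma J_two_rat {g : ℤ} (h : g % 2 = 1) : J 2 (g : G) = 1 := by
  simpa using J_rat h (coprime_two_int h)

lemma J_two {β : G} (hβ : Semi β) {b : ℤ} (hb : β.im = 2 * b) : J 2 β = E (β.re * b) := by
  obtain ⟨g, β1, hg, rfl, hc⟩ := decomp β hβ.1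
  have s1 := hβ.of_mul (semi_cast (by omega))
  obtain ⟨b1, hb1⟩ : ∃ b1, β1.im = 2 * b1 := ⟨β1.im / 2, by have := s1.2; omega⟩
  rw [J_mul_right _ (cast_ne_zero_of_odd (by omega)) s1.ne_zero, J_two_rat (by omega), one_mul,
    J_two_prim hc s1.1 hb1]
  obtain ⟨t, rfl⟩ : ∃ t, g = 1 + 4 * t := ⟨g / 4, by omega⟩
  have e1 : b = (1 + 4 * t) * b1 := by
    have : 2 * b = (1 + 4 * t) * (2 * b1) := by rw [← hb, ← hb1]; simp
    linarith
  have e2 : (((1 + 4 * t : ℤ) : G) * β1).re = (1 + 4 * t) * β1.re := by simp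
  rw [e2, e1]
  exact E_congr' ⟨-((2 * t + 4 * t ^ 2) * β1.re * b1), by ring⟩

/-- Quartic reciprocity, second argument not necessarily primitive. -/
theorem recip {α β : G} {a b c d : ℤ} (ha : α.re = 1 + 2 * a) (hb : α.im = 2 * b)
    (hc : β.re = 1 + 2 * c) (hd : β.im = 2 * d) (hα : IsCoprime α.re α.im) (h : IsCoprime α β) :
    J α β = E (2 * (b * c + d * (a + b))) * J β α := by
  have sα : Semi α := ⟨by omega, by omega⟩
  have sβ : Semi β := ⟨by omega, by omega⟩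
  obtain ⟨g, β1, hg, rfl, hc1⟩ := decomp β sβ.1
  have s1 := sβ.of_mul (semi_cast (by omega))
  obtain ⟨d1, hd1⟩ : ∃ b1, β1.im = 2 * b1 := ⟨β1.im / 2, by have := s1.2; omega⟩
  obtain ⟨c1, hc2⟩ : ∃ b1, β1.re = 1 + 2 * b1 := ⟨β1.re / 2, by have := s1.1; omega⟩
  rw [J_mul_right _ (cast_ne_zero_of_odd (by omega)) s1.ne_zero, J_mul_left,
    recip_prim ha hb hc2 hd1 hα hc1 h.of_mul_right_right,
    rat_recip hg sα h.of_mul_right_left.symm]
  obtain ⟨t, rfl⟩ : ∃ t, g = 1 + 4 * t := ⟨g / 4, by omega⟩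
  have e1 : d = (1 + 4 * t) * d1 := by
    have : 2 * d = (1 + 4 * t) * (2 * d1) := by rw [← hd, ← hd1]; simp
    linarith
  have e2 : c = c1 + 2 * t * (1 + 2 * c1) := by
    have : 1 + 2 * c = (1 + 4 * t) * (1 + 2 * c1) := by rw [← hc, ← hc2]; simp
    linarith
  rw [E_congr' (a := 2 * (b * c + d * (a + b))) (b := 2 * (b * c1 + d1 * (a + b)))
    ⟨b * t * (1 + 2 * c1) + 2 * t * d1 * (a + b), by rw [e1, e2]; ring⟩]
  ring

lemma gi_sq_rat {g x : ℤ} (hg : g % 2 = 1) (h : J gi (g : G) = E x) : (2 * x) % 4 = 0 := by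
  have h1 : J (gi * gi) (g : G) = 1 := by
    rw [gi_mul_gi]
    simpa using J_rat (a := -1) hg (isCoprime_one_left.neg_left)
  rw [J_mul_left, h, ← E_add, ← E_zero] at h1
  have := E_inj h1
  omega

theorem key {α ρ ρt η ρ2 σ : G} {n n' h s t : ℤ} {e : ℕ} (h2α : 2 * α = ρ - gi * ρt)
    (hdet : ρ.re * ρt.im - ρ.im * ρt.re = 2 ^ e * n) (hn : n = 1 + 2 * n') (hA : ρ.re % 4 = 1)
    (hη : ∀ a : ℤ, a % 2 = 1 → IsCoprime η (a : G)) (hρ : ρ = η * ρ2) (hs : Semi ρ2)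
    (hh : ρ2.im = 2 * h) (hc : IsCoprime α (n : G)) (hσ : σ = (s : G) * ρ + (t : G) * ρt)
    (hσc : IsCoprime σ (n : G)) :
    IsCoprime α ρ2 ∧ J α ρ2 * J 2 ρ2 * J η (n : G) =
      J 2 ρ2 ^ e * E (2 * (n' * h)) * J η (ρ.re : G) * J gi (ρ.re : G) * J σ (n : G) := by
  obtain ⟨g, ρ1, hg, hρ1, hp⟩ := decomp ρ (by omega)
  have g0 : g ≠ 0 := by omega
  have g0' : (g : G) ≠ 0 := cast_ne_zero_of_odd (by omega)
  have hre : ρ.re = g * ρ1.re := by rw [hρ1]; simp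
  have him : ρ.im = g * ρ1.im := by rw [hρ1]; simp
  have hgn : g ∣ n := by
    have h1 : g ∣ 2 ^ e * n := ⟨ρ1.re * ρt.im - ρ1.im * ρt.re, by rw [← hdet, hre, him]; ring⟩
    exact ((coprime_two_int (g := g) (by omega)).symm.pow_right).dvd_of_dvd_mul_left h1
  obtain ⟨Δ, hΔ⟩ := hgn
  have hdet1 : ρ1.re * ρt.im - ρ1.im * ρt.re = 2 ^ e * Δ := by
    apply mul_left_cancel₀ g0
    rw [hre, him, hΔ] at hdet
    linarith
  have hg2 : (g : G) ∣ ρ2 :=
    (hη g (by omega)).symm.dvd_of_dvd_mul_left ⟨ρ1, by rw [← hρ, hρ1]⟩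
  obtain ⟨τ, hτ⟩ := hg2
  have hτ1 : ρ1 = η * τ := by
    apply mul_left_cancel₀ g0'
    rw [← hρ1, hρ, hτ]; ring
  have sτ : Semi τ := Semi.of_mul (hτ ▸ hs) (semi_cast (by omega))
  obtain ⟨h1, hh1⟩ : ∃ h1, τ.im = 2 * h1 := ⟨τ.im / 2, by have := sτ.2; omega⟩
  obtain ⟨w, hw⟩ : ∃ w, g = 1 + 4 * w := ⟨g / 4, by omega⟩
  have hA1 : ρ1.re % 4 = 1 := by
    have : ρ.re = ρ1.re + 4 * (w * ρ1.re) := by rw [hre, hw]; ring
    omega
  obtain ⟨Δ', hΔ'⟩ : ∃ Δ', Δ = 1 + 2 * Δ' := by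
    have : n = Δ + 4 * (w * Δ) := by rw [hΔ, hw]; ring
    exact ⟨Δ / 2, by omega⟩
  have hn' : n' = Δ' + 2 * (w * Δ) := by
    have : n = Δ + 4 * (w * Δ) := by rw [hΔ, hw]; ring
    omega
  have hh' : h = h1 + 4 * (w * h1) := by
    have : 2 * h = (1 + 4 * w) * (2 * h1) := by rw [← hh, ← hh1, ← hw, hτ]; simp
    linarith
  have hΔG : (n : G) = (g : G) * (Δ : G) := by rw [hΔ]; push_cast; ring
  have hAG : (ρ.re : G) = (g : G) * (ρ1.re : G) := by rw [hre]; push_cast; ring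
  have Δ0 : (Δ : G) ≠ 0 := cast_ne_zero_of_odd (by omega)
  have A0 : (ρ1.re : G) ≠ 0 := cast_ne_zero_of_odd (by omega)
  have d1 : τ ∣ 2 * (ρ1.re : G) * α - 2 ^ e * (Δ : G) := by
    have e1 : (2 : G) ^ e * (Δ : G) = (ρ1.re : G) * (ρt.im : G) - (ρ1.im : G) * (ρt.re : G) := by
      have := congrArg (Int.cast : ℤ → G) hdet1
      push_cast at this
      exact this.symm
    have e2 : 2 * (ρ1.re : G) * α - 2 ^ e * (Δ : G) =
        ρ1 * ((ρ1.re : G) * (g : G) - gi * (ρt.re : G)) := by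
      have f1 := G_eq ρ1
      have f2 := G_eq ρt
      rw [e1]
      linear_combination (ρ1.re : G) * h2α + (ρ1.re : G) * hρ1 - (ρ1.re : G) * gi * f2
        + gi * (ρt.re : G) * f1
        + ((ρ1.im : G) * (ρt.re : G) - (ρ1.re : G) * (ρt.im : G)) * gi_mul_gi
    rw [e2, hτ1]
    exact (dvd_mul_left τ η).mul_right _
  have c2 : IsCoprime 2 τ := coprime_two sτ
  have cρA : IsCoprime ρ1 (ρ1.re : G) := coprime_re hp
  have cA : IsCoprime τ (ρ1.re : G) := (hτ1 ▸ cρA : IsCoprime (η * τ) _).of_mul_left_right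
  have cαg : IsCoprime α (g : G) := (hΔG ▸ hc : IsCoprime α (_ * _)).of_mul_right_left
  have cαΔ : IsCoprime α (Δ : G) := (hΔG ▸ hc : IsCoprime α (_ * _)).of_mul_right_right
  have cσg : IsCoprime σ (g : G) := (hΔG ▸ hσc : IsCoprime σ (_ * _)).of_mul_right_left
  have cσΔ : IsCoprime σ (Δ : G) := (hΔG ▸ hσc : IsCoprime σ (_ * _)).of_mul_right_right
  have cΔ : IsCoprime (Δ : G) τ := by
    refine isCoprime_of_prime_dvd (fun h => Δ0 h.1) fun q hq q1 q2 => ?_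
    have q3 : q ∣ 2 * (ρ1.re : G) * α := by
      have := dvd_add (q2.trans d1) (q1.mul_left (2 ^ e))
      simpa using this
    rcases hq.dvd_or_dvd q3 with q4 | q4
    · rcases hq.dvd_or_dvd q4 with q4 | q4
      · exact not_dvd_of_coprime hq c2 q2 q4
      · exact not_dvd_of_coprime hq cA q4 q2
    · exact not_dvd_of_coprime hq cαΔ q1 q4
  have cατ : IsCoprime α τ := by
    refine isCoprime_of_prime_dvd (fun h => sτ.ne_zero h.2) fun q hq q1 q2 => ?_
    have q3 : q ∣ 2 ^ e * (Δ : G) := by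
      have := dvd_sub (q1.mul_left (2 * (ρ1.re : G))) (q2.trans d1)
      simpa using this
    rcases hq.dvd_or_dvd q3 with q4 | q4
    · exact not_dvd_of_coprime hq c2 q2 (hq.dvd_of_dvd_pow q4)
    · exact not_dvd_of_coprime hq cΔ q2 q4
  refine ⟨by rw [hτ]; exact cαg.mul_right cατ, ?_⟩
  have E1 := J_congr sτ.ne_zero d1
  rw [J_mul_left, J_mul_left, J_mul_left, J_pow_left, rat_recip hA1 sτ cA.symm,
    rat_recip_odd hΔ' sτ hh1 cΔ] at E1
  have E2 : J η (ρ1.re : G) * J τ (ρ1.re : G) = J gi (ρ1.re : G) := by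
    rw [← J_mul_left, ← hτ1]; exact J_self_re hp (by omega)
  have E3 : J η (Δ : G) * J τ (Δ : G) = J σ (Δ : G) := by
    rw [← J_mul_left, ← hτ1]
    refine J_prop (by omega) (by rw [hτ1]; exact (hη Δ (by omega)).mul_left cΔ.symm) cσΔ
      ⟨-(t * 2 ^ e), ?_⟩
    rw [hσ, hρ1]
    simp
    linear_combination (-t) * hdet1
  have d4 : (g : G) ∣ 2 * gi * α - ρt := ⟨gi * ρ1, by
    linear_combination gi * h2α + gi * hρ1 - ρt * gi_mul_gi⟩
  have cρt : IsCoprime ρt (g : G) := by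
    obtain ⟨z, hz⟩ := d4
    have : ρt = 2 * gi * α + (g : G) * (-z) := by linear_combination -hz
    rw [this]
    have c3 : IsCoprime (2 : G) (g : G) := by
      simpa using coprime_cast (coprime_two_int (g := g) (by omega))
    exact ((c3.mul_left (coprime_gi _)).mul_left cαg).add_mul_left_left _
  have E4 : J gi (g : G) * J α (g : G) = J σ (g : G) := by
    have := J_congr g0' d4
    rw [J_mul_left, J_mul_left, J_two_rat (by omega), one_mul] at this
    rw [this]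
    refine J_prop (by omega) cρt cσg ⟨s * (ρ1.re * ρt.im - ρ1.im * ρt.re), ?_⟩
    rw [hσ, hρ1]
    simp
    ring
  obtain ⟨x1, e1⟩ := J_coprime cατ
  obtain ⟨x2, e2⟩ := J_coprime c2
  obtain ⟨x3, e3⟩ := J_coprime (hη g (by omega))
  obtain ⟨x4, e4⟩ := J_coprime (hη Δ (by omega))
  obtain ⟨x5, e5⟩ := J_coprime (hη ρ1.re (by omega))
  obtain ⟨x6, e6⟩ := J_coprime (coprime_gi (ρ1.re : G))
  obtain ⟨x7, e7⟩ := J_coprime (coprime_gi (g : G))
  obtain ⟨x8, e8⟩ := J_coprime cσg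
  obtain ⟨x9, e9⟩ := J_coprime cσΔ
  obtain ⟨x10, e10⟩ := J_coprime cA
  obtain ⟨x11, e11⟩ := J_coprime cΔ.symm
  obtain ⟨x12, e12⟩ := J_coprime cαg
  have f6 := gi_sq_rat (by omega) e6
  have f7 := gi_sq_rat (by omega) e7
  rw [hτ, hΔG, hAG]
  simp only [J_mul_right _ g0' sτ.ne_zero, J_mul_right _ g0' Δ0, J_mul_right _ g0' A0,
    J_two_rat (show g % 2 = 1 by omega), one_mul]
  simp only [e1, e2, e3, e4, e5, e6, e7, e8, e9, e10, e11, e12, E_pow, ← E_add] at E1 E2 E3 E4 ⊢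
  have F1 := E_inj E1
  have F2 := E_inj E2
  have F3 := E_inj E3
  have F4 := E_inj E4
  have F5 : 2 * (n' * h) = 2 * (Δ' * h1) + 4 * (w * Δ * h + 2 * w * h1 * Δ') := by
    rw [hn']; linear_combination (2 * Δ') * hh'
  apply E_congr
  omega

lemma exists_comb (ρ ρt : G) {n : ℤ} (hn : n ≠ 0)
    (H1 : ∀ q : G, Prime q → q ∣ (n : G) → q ∣ ρ → ¬ q ∣ ρt)
    (H2 : ∀ q : G, Prime q → q ∣ (n : G) → q ∣ ρ → q ∣ star ρ) :
    ∃ t : ℤ, IsCoprime (ρ + (t : G) * ρt) (n : G) := by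
  classical
  let T : ℕ := ∏ l ∈ n.natAbs.primeFactors.filter (fun l : ℕ => ¬ (l : ℤ) ∣ ρ.norm), l
  refine ⟨T, isCoprime_of_prime_dvd (fun h => hn (by exact_mod_cast h.2)) fun q hq q1 q2 => ?_⟩
  have q3 : q ∣ ((n.natAbs : ℕ) : G) := by
    rcases Int.natAbs_eq n with h | h
    · rw [h] at q2; simpa using q2
    · rw [h] at q2; simpa using q2
  obtain ⟨l, hl, ql, hln⟩ := exists_prime_below hq _ (Int.natAbs_ne_zero.2 hn) q3
  have hmem : l ∈ n.natAbs.primeFactors :=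
    Nat.mem_primeFactors.2 ⟨hl, hln, Int.natAbs_ne_zero.2 hn⟩
  rw [Int.cast_natCast] at q1
  by_cases hd : (l : ℤ) ∣ ρ.norm
  · have q4 : q ∣ ρ * star ρ := by
      rw [← Zsqrtd.norm_eq_mul_conj]
      obtain ⟨z, hz⟩ := hd
      rw [hz]; push_cast; exact ql.mul_right _
    have q5 : q ∣ ρ := by
      rcases hq.dvd_or_dvd q4 with q5 | q5
      · exact q5
      · have h1 := star_dvd_star q5
        rw [star_star] at h1
        have h2 := star_dvd_star (H2 _ (prime_star hq)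
          (by simpa using star_dvd_star q2) h1)
        simpa using h2
    have q6 : q ∣ (T : G) * ρt := (dvd_add_right q5).1 q1
    rcases hq.dvd_or_dvd q6 with q7 | q7
    · have c1 : Nat.Coprime l T := Nat.Coprime.prod_right fun l' hl' => by
        rw [Finset.mem_filter] at hl'
        refine (Nat.coprime_primes hl (Nat.prime_of_mem_primeFactors hl'.1)).2 ?_
        rintro rfl
        exact hl'.2 hd
      have c2 := coprime_cast (Nat.isCoprime_iff_coprime.2 c1)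
      rw [Int.cast_natCast, Int.cast_natCast] at c2
      exact not_dvd_of_coprime hq c2 q7 ql
    · exact H1 q hq q2 q5 q7
  · have h1 : l ∣ T := Finset.dvd_prod_of_mem _ (Finset.mem_filter.2 ⟨hmem, hd⟩)
    have q4 : q ∣ (T : G) := ql.trans (Nat.cast_dvd_cast h1)
    have q5 : q ∣ ρ := (dvd_add_left (q4.mul_right _)).1 q1
    apply hd
    refine dvd_trans ?_ (norm_dvd q5)
    rcases norm_cases hq hl ql with h | ⟨_, _, h⟩
    · rw [h]
    · rw [h]; exact dvd_pow_self _ two_ne_zero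

end Pool.Agent.Lib.MP_953685_nt
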