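import Pool.Agent.Lib.MP_953685_nt.Key

/-! The master identity for the symbol of `K y + x i` at `c + d i`. -/

namespace Pool.Agent.Lib.MP_953685_nt

/-- `(c + K y) + (d + x) i` -/
def rho (c d x y K : ℤ) : G := ⟨c + K * y, d + x⟩
/-- `(x - d) + (c - K y) i` -/
def rhot (c d x y K : ℤ) : G := ⟨x - d, c - K * y⟩

lemma two_alpha (c d x y K : ℤ) :
    2 * (⟨c, d⟩ : G) = rho c d x y K - gi * rhot c d x y K := by
  have : (2 : G) = ((2 : ℤ) : G) := by simp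
  rw [this]
  ext
  · simp only [rho, rhot, Zsqrtd.re_mul, Zsqrtd.re_intCast, Zsqrtd.im_intCast, Zsqrtd.re_sub,
      gi_re, gi_im]; ring
  · simp only [rho, rhot, Zsqrtd.im_mul, Zsqrtd.re_intCast, Zsqrtd.im_intCast, Zsqrtd.im_sub,
      gi_re, gi_im]; ring

lemma coprime_alpha {c d n : ℤ} (h : IsCoprime (c ^ 2 + d ^ 2) n) :
    IsCoprime (⟨c, d⟩ : G) (n : G) := by
  have h1 := coprime_cast h
  have h2 : ((c ^ 2 + d ^ 2 : ℤ) : G) = (⟨c, d⟩ : G) * star (⟨c, d⟩ : G) := by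
    rw [← Zsqrtd.norm_eq_mul_conj, norm_eq]
  rw [h2] at h1
  exact h1.of_mul_left_left

lemma exists_sigma {c d x y K m n : ℤ} (hrel : c ^ 2 + d ^ 2 = x ^ 2 + (m + K ^ 2) * y ^ 2)
    (hn : n % 2 = 1) (hd : n ∣ m * y ^ 2) (hco : IsCoprime (c ^ 2 + d ^ 2) n) :
    ∃ t : ℤ, IsCoprime (rho c d x y K + (t : G) * rhot c d x y K) (n : G) := by
  have c1 := coprime_alpha hco
  have c2 : IsCoprime (2 : G) (n : G) := by simpa using coprime_cast (coprime_two_int hn)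
  refine exists_comb _ _ (by omega) (fun q hq q1 q2 q3 => ?_) (fun q hq q1 q2 => ?_)
  · have q4 : q ∣ 2 * (⟨c, d⟩ : G) := by
      rw [two_alpha c d x y K]; exact dvd_sub q2 (q3.mul_left _)
    exact not_dvd_of_coprime hq (c2.mul_left c1) q1 q4
  · have e : star (rho c d x y K) * (⟨c, d⟩ : G) =
        rho c d x y K * star (⟨K * y, x⟩ : G) + ((m * y ^ 2 : ℤ) : G) := by
      ext
      · simp only [rho, Zsqrtd.re_mul, Zsqrtd.re_add, Zsqrtd.re_intCast, Zsqrtd.re_star,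
          Zsqrtd.im_star]
        linear_combination hrel
      · simp only [rho, Zsqrtd.im_mul, Zsqrtd.im_add, Zsqrtd.im_intCast, Zsqrtd.re_star,
          Zsqrtd.im_star]
        ring
    have q3 : q ∣ ((m * y ^ 2 : ℤ) : G) := q1.trans (by
      obtain ⟨z, hz⟩ := hd
      exact ⟨(z : G), by rw [hz]; push_cast; ring⟩)
    have q4 : q ∣ star (rho c d x y K) * (⟨c, d⟩ : G) := by
      rw [e]; exact dvd_add (q2.mul_right _) q3
    rcases hq.dvd_or_dvd q4 with q5 | q5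
    · exact q5
    · exact absurd q5 (not_dvd_of_coprime hq c1 q1)

theorem core {c d x y K m y0 s t j c' d' y' n' A' r h u1 u2 u3 : ℤ} {k : ℕ} {η ρ2 : G}
    (hc : c = 1 + 2 * c') (hd : d = 2 * d') (hcd : IsCoprime c d)
    (hrel : c ^ 2 + d ^ 2 = x ^ 2 + (m + K ^ 2) * y ^ 2)
    (hco : IsCoprime (c ^ 2 + d ^ 2) (m * y)) (hm : m % 2 = 1)
    (hy : y = 2 ^ k * y0) (hy0 : y0 % 4 = 1) (hy' : y0 = 1 + 2 * y')
    (hn' : m * y0 ^ 2 = 1 + 2 * n') (hA : (c + K * y) % 4 = 1) (hA' : c + K * y = 1 + 2 * A')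
    (hη : ∀ a : ℤ, a % 2 = 1 → IsCoprime η (a : G)) (hρ : rho c d x y K = η * ρ2)
    (hr : ρ2.re = 1 + 2 * r) (hh : ρ2.im = 2 * h)
    (hu1 : J η ⟨c, d⟩ = E u1) (hu2 : J η ((m * y0 ^ 2 : ℤ) : G) = E u2)
    (hu3 : J η ((c + K * y : ℤ) : G) = E u3)
    (hj : J ((s : G) * rho c d x y K + (t : G) * rhot c d x y K) (m : G) = E j) :
    J ⟨K * y, x⟩ ⟨c, d⟩ =
      E (j + (u1 - 2 * (d' * r + h * (c' + d')) - (1 + 2 * r) * h + 2 * (n' * h) + u3 - u2
        + A' * (A' + 1) + y' * (y' + 1) + k * (2 * ((1 + 2 * r) * h) - c * d'))) *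
        J (y : G) ⟨c, d⟩ := by
  set α : G := ⟨c, d⟩ with hα
  have hre : α.re = 1 + 2 * c' := hc
  have him : α.im = 2 * d' := hd
  have sα : Semi α := ⟨by omega, by omega⟩
  have sρ : Semi ρ2 := ⟨by omega, by omega⟩
  have cm : IsCoprime (c ^ 2 + d ^ 2) m := hco.of_mul_right_left
  have cy : IsCoprime (c ^ 2 + d ^ 2) y := hco.of_mul_right_right
  have cy0 : IsCoprime (c ^ 2 + d ^ 2) y0 := (hy ▸ cy : IsCoprime _ (_ * _)).of_mul_right_right
  have cn : IsCoprime (c ^ 2 + d ^ 2) (m * y0 ^ 2) := cm.mul_right cy0.pow_right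
  have hyy : y ^ 2 = 2 ^ (2 * k) * y0 ^ 2 := by rw [hy]; ring
  obtain ⟨t', ht'⟩ := exists_sigma hrel (n := m * y0 ^ 2) (by omega)
    ⟨2 ^ (2 * k), by rw [hyy]; ring⟩ cn
  set σ' : G := rho c d x y K + (t' : G) * rhot c d x y K with hσ'
  obtain ⟨cαρ, hkey⟩ := key (α := α) (σ := σ') (s := 1) (t := t') (e := 2 * k)
    (two_alpha c d x y K) (n := m * y0 ^ 2)
    (by simp only [rho, rhot]; linear_combination hrel + m * hyy) hn' hA hη hρ sρ hh
    (coprime_alpha cn) (by rw [hσ']; simp) ht'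
  have m0 : (m : G) ≠ 0 := cast_ne_zero_of_odd hm
  have y00 : (y0 : G) ≠ 0 := cast_ne_zero_of_odd (by omega)
  have hnG : ((m * y0 ^ 2 : ℤ) : G) = (m : G) * ((y0 : G) * (y0 : G)) := by push_cast; ring
  have cσm : IsCoprime σ' (m : G) := (hnG ▸ ht' : IsCoprime σ' (_ * _)).of_mul_right_left
  have cσy : IsCoprime σ' (y0 : G) :=
    (hnG ▸ ht' : IsCoprime σ' (_ * _)).of_mul_right_right.of_mul_right_left
  have cαy := coprime_alpha cy0
  have cσ0 : IsCoprime ((s : G) * rho c d x y K + (t : G) * rhot c d x y K) (m : G) :=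
    coprime_of_J_ne_zero (semi_cast hm).norm_odd (by rw [hj]; exact E_ne_zero _)
  have S1 : J σ' (m : G) = E j := by
    rw [← hj]
    refine J_prop hm cσm cσ0 ⟨(s * t' - t) * y ^ 2, ?_⟩
    rw [hσ']
    simp [rho, rhot]
    linear_combination (s * t' - t) * hrel
  have S2 : J σ' (y0 : G) * J σ' (y0 : G) = J gi (y0 : G) * J α (y0 : G) := by
    rw [← J_mul_left, ← J_mul_left]
    refine J_prop (by omega) (cσy.mul_left cσy) ((coprime_gi _).mul_left cαy) ?_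
    refine Dvd.dvd.trans (show y0 ∣ y from ⟨2 ^ k, by rw [hy]; ring⟩) ?_
    rw [hσ', hα]
    refine ⟨(m + K ^ 2) * y * (-c + 2 * t' * d + t' ^ 2 * c) +
      ((2 * (⟨c + t' * (x - d), d + x + t' * c⟩ : G) * (⟨K, -(t' * K)⟩ : G)
        + (y : G) * (⟨K, -(t' * K)⟩ : G) * (⟨K, -(t' * K)⟩ : G)) *
        star (gi * (⟨c, d⟩ : G))).im, ?_⟩
    simp [rho, rhot]
    linear_combination (-c + 2 * t' * d + t' ^ 2 * c) * hrel
  have T1 : J ⟨K * y, x⟩ α = J η α * J ρ2 α := by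
    rw [← J_mul_left, ← hρ]
    exact J_congr sα.ne_zero ⟨-1, by ext <;> simp [rho, hα]⟩
  have T2 := recip hre him hr hh hcd cαρ
  have T3 := J_two sρ hh
  have T4 := J_two sα him
  have T5 : J (y : G) α = J 2 α ^ k * J α (y0 : G) := by
    rw [← rat_recip hy0 sα cαy.symm, ← J_pow_left, ← J_mul_left, hy]; push_cast; rfl
  have T6 : J σ' ((m * y0 ^ 2 : ℤ) : G) = E j * (J gi (y0 : G) * J α (y0 : G)) := by
    rw [hnG, J_mul_right _ m0 (mul_ne_zero y00 y00), J_mul_right _ y00 y00, S1, S2]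
  have T7 : (rho c d x y K).re = c + K * y := rfl
  obtain ⟨z1, e1⟩ := J_coprime cαρ.symm
  obtain ⟨z2, e2⟩ := J_coprime cαy
  rw [T7, T2, T3, T6, hu2, hu3, J_gi_rat hA', J_gi_rat hy', e1, e2, hr] at hkey
  rw [T1, T5, T4, hu1, e1, e2]
  simp only [E_pow, ← E_add] at hkey ⊢
  have F := E_inj hkey
  have h1 : α.re = c := rfl
  have h2 : ((2 * k : ℕ) : ℤ) * ((1 + 2 * r) * h) =
      k * (2 * ((1 + 2 * r) * h) - c * d') + k * (c * d') := by push_cast; ring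
  rw [h1]
  apply E_congr
  omega

end Pool.Agent.Lib.MP_953685_nt
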