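import Pool.Agent.Lib.MP_953685_nt.Final

/-! Check: the case `m = 1`, `μ = 1` of `final` is Q1 word for word (not a hand-in). -/

namespace Pool.Agent.Lib.MP_953685_nt

lemma opo_ne_zero {z : ℤ} (h : OddPartOne z) : z ≠ 0 := by
  obtain ⟨k, w, rfl, hw⟩ := h
  exact mul_ne_zero (pow_ne_zero _ two_ne_zero) (by omega)

lemma not_dvd_of_sq_lt {p : ℕ} {z : ℤ} (h0 : z ≠ 0) (h : z ^ 2 < p) : ¬ (p : ℤ) ∣ z := by
  intro hd
  have h1 := Int.le_of_dvd (abs_pos.2 h0) ((dvd_abs _ _).2 hd)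
  have h2 : |z| ^ 2 = z ^ 2 := sq_abs z
  have h3 := abs_pos.2 h0
  nlinarith

lemma iota_zpow {F : Type*} [Field F] {ι : F} (h : ι ^ 2 = -1) {a : ℤ} (k : ℤ)
    (hk : (4 : ℤ) ∣ a - 2 * k) : ι ^ a = (-1) ^ k := by
  obtain ⟨w, hw⟩ := hk
  have h0 : ι ≠ 0 := by rintro rfl; simp at h
  have h2 : ι ^ (2 : ℤ) = -1 := by rw [← h, zpow_two, pow_two]
  rw [show a = 2 * (k + 2 * w) by linarith, zpow_mul, h2, zpow_add₀ (by simp), zpow_mul]
  simp

theorem q1 (p : ℕ) [hpf : Fact p.Prime] (b c d x y : ℤ) (hp : p % 4 = 1) (hb : 8 ∣ b)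
    (hcd : c ^ 2 + d ^ 2 = p) (hxy : x ^ 2 + (1 + b ^ 2 / 4) * y ^ 2 = p) (hc : c % 4 = 1)
    (hd : OddPartOne d) (hx : OddPartOne x) (hy : OddPartOne y) :
    (U b (-1) ((p - 1) / 4) : ZMod p) =
        (if 4 ∣ x * y then 0
          else -(-1) ^ ((b / 8 - 1) * y) * (((d : ZMod p) * y) / (c * x))) ∧
    (V b (-1) ((p - 1) / 4) : ZMod p) =
        (if 4 ∣ x * y then 2 * (-1) ^ (d / 4 + x * y / 4 + b / 8 * y) else 0) := by
  have hpp : Prime (p : ℤ) := Nat.prime_iff_prime_int.1 hpf.out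
  have d0 := opo_ne_zero hd
  have x0 := opo_ne_zero hx
  have y0 := opo_ne_zero hy
  have c0 : c ≠ 0 := by omega
  have hD : 0 ≤ b ^ 2 / 4 := Int.ediv_nonneg (sq_nonneg b) (by norm_num)
  have nc : ¬ (p : ℤ) ∣ c := not_dvd_of_sq_lt c0 (by nlinarith [sq_pos_of_pos (abs_pos.2 d0), sq_abs d])
  have nd : ¬ (p : ℤ) ∣ d := not_dvd_of_sq_lt d0 (by nlinarith [sq_pos_of_pos (abs_pos.2 c0), sq_abs c])
  have nx : ¬ (p : ℤ) ∣ x := not_dvd_of_sq_lt x0 (by nlinarith [sq_pos_of_pos (abs_pos.2 y0), sq_abs y])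
  have ny : ¬ (p : ℤ) ∣ y := not_dvd_of_sq_lt y0
    (by nlinarith [sq_pos_of_pos (abs_pos.2 x0), sq_abs x, sq_nonneg y])
  have cc : IsCoprime c d := by
    have h1 : IsCoprime c (p : ℤ) := ((Prime.coprime_iff_not_dvd hpp).2 nc).symm
    rw [← hcd, show c ^ 2 + d ^ 2 = d * d + c * c by ring] at h1
    exact h1.of_add_mul_left_right.of_mul_right_left
  obtain ⟨c1, hc1⟩ : ∃ c1, c = 1 + 4 * c1 := ⟨c / 4, by omega⟩
  have hd2 : d % 2 = 0 := by
    by_contra h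
    obtain ⟨d1, hd1⟩ : ∃ d1, d = 1 + 2 * d1 := ⟨d / 2, by omega⟩
    rw [hc1, hd1] at hcd
    ring_nf at hcd
    omega
  obtain ⟨hU, hV⟩ := (final p b 1 c d x y ⟨c, d⟩ 1 hp hb odd_one (by rw [norm_eq, ← hcd])
    (mul_one _) cc (hcd.trans hxy.symm)
    (by rw [hcd, one_mul]; exact (Prime.coprime_iff_not_dvd hpp).2 ny) nx hc
    (Int.even_iff.2 hd2) hd hx hy).2 1 0 0 0 (by simp [J_unit _ isUnit_one])
    (by simp [J_unit _ isUnit_one])
  have c0' : (c : ZMod p) ≠ 0 := fun h => nc ((ZMod.intCast_zmod_eq_zero_iff_dvd _ p).1 h)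
  have d0' : (d : ZMod p) ≠ 0 := fun h => nd ((ZMod.intCast_zmod_eq_zero_iff_dvd _ p).1 h)
  have x0' : (x : ZMod p) ≠ 0 := fun h => nx ((ZMod.intCast_zmod_eq_zero_iff_dvd _ p).1 h)
  have two0 : (2 : ZMod p) ≠ 0 := two_ne_zero_of_charP (ZMod p) hpf.out (by omega)
  have hN : (c : ZMod p) ^ 2 + (d : ZMod p) ^ 2 = 0 := by
    have := congrArg (Int.cast : ℤ → ZMod p) hcd
    push_cast at this
    simpa using this
  have hι : ((d : ZMod p) / c) ^ 2 = -1 := by field_simp; linear_combination hN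
  simp only [Nat.cast_zero, sub_zero, zero_add, Int.cast_one] at hU hV
  obtain ⟨K, rfl⟩ := hb
  have e2 : (8 * K) ^ 2 / 4 = 16 * K ^ 2 := by
    rw [show (8 * K) ^ 2 = 4 * (16 * K ^ 2) by ring]; omega
  have e3 : 8 * K / 8 = K := by omega
  rw [e2] at hxy
  rw [e3]
  obtain ⟨d1, hd1⟩ : ∃ d1, d = 2 * d1 := ⟨d / 2, by omega⟩
  have hex : ∃ k : ℤ, ex (8 * K) 1 d x y = 2 * k ∧
      ((4 ∣ x * y ∧ p % 8 = 1 ∧ (2 : ℤ) ∣ k - (d / 4 + x * y / 4 + K * y)) ∨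
       (¬ 4 ∣ x * y ∧ p % 8 = 5 ∧ (2 : ℤ) ∣ k - (K - 1) * y)) := by
    have hp8 : (p : ℤ) = 1 + 8 * (c1 + 2 * c1 ^ 2) + 4 * d1 ^ 2 := by
      rw [← hcd, hc1, hd1]; ring
    unfold ex
    rw [e3]
    rcases opo_cases hy with h | h | h
    · obtain ⟨y1, rfl⟩ : ∃ y1, y = 1 + 4 * y1 := ⟨y / 4, by omega⟩
      rw [if_pos (by omega)]
      refine ⟨K + (d + x) / 4, by omega, ?_⟩
      have e4 : K * (1 + 4 * y1) = K + 4 * (K * y1) := by ring
      have e5 : (K - 1) * (1 + 4 * y1) = K - 1 + 4 * ((K - 1) * y1) := by ring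
      rcases opo_cases hx with h2 | h2 | h2
      · exfalso
        obtain ⟨x1, rfl⟩ : ∃ x1, x = 1 + 4 * x1 := ⟨x / 4, by omega⟩
        ring_nf at hxy; omega
      · right
        obtain ⟨x1, rfl⟩ : ∃ x1, x = 2 + 8 * x1 := ⟨x / 8, by omega⟩
        have e6 : (2 + 8 * x1) * (1 + 4 * y1) = 2 + 8 * (x1 + y1 + 4 * (x1 * y1)) := by ring
        have h8 : p % 8 = 5 := by ring_nf at hxy; omega
        have h9 : d % 8 = 2 := by
          rcases opo_cases hd with h3 | h3 | h3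
          · omega
          · exact h3
          · obtain ⟨d2, rfl⟩ : ∃ d2, d1 = 2 * d2 := ⟨d1 / 2, by omega⟩
            ring_nf at hp8; omega
        exact ⟨by omega, h8, by omega⟩
      · left
        obtain ⟨x1, rfl⟩ : ∃ x1, x = 4 * x1 := ⟨x / 4, by omega⟩
        have e6 : (4 * x1) * (1 + 4 * y1) = 4 * (x1 + 4 * (x1 * y1)) := by ring
        have h8 : p % 8 = 1 := by ring_nf at hxy; omega
        have h9 : d % 4 = 0 := by
          by_contra h3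
          obtain ⟨d2, rfl⟩ : ∃ d2, d1 = 1 + 2 * d2 := ⟨d1 / 2, by omega⟩
          ring_nf at hp8; omega
        exact ⟨by omega, h8, by omega⟩
    · obtain ⟨y1, rfl⟩ : ∃ y1, y = 2 + 8 * y1 := ⟨y / 8, by omega⟩
      rw [if_neg (by omega), if_pos (by norm_num), if_neg (by omega)]
      refine ⟨0, by norm_num, Or.inr ?_⟩
      have e5 : (K - 1) * (2 + 8 * y1) = 2 * ((K - 1) * (1 + 4 * y1)) := by ring
      have h1 : x % 2 = 1 := by
        by_contra h2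
        obtain ⟨x1, rfl⟩ : ∃ x1, x = 2 * x1 := ⟨x / 2, by omega⟩
        ring_nf at hxy; omega
      obtain ⟨x1, rfl⟩ : ∃ x1, x = 1 + 4 * x1 := ⟨x / 4, by have := opo_cases hx; omega⟩
      have e6 : (1 + 4 * x1) * (2 + 8 * y1) = 2 + 8 * (x1 + y1 + 4 * (x1 * y1)) := by ring
      have h8 : p % 8 = 5 := by ring_nf at hxy; omega
      exact ⟨by omega, h8, by omega⟩
    · obtain ⟨y1, rfl⟩ : ∃ y1, y = 4 * y1 := ⟨y / 4, by omega⟩
      rw [if_neg (by omega), if_pos (by norm_num), if_pos (by omega)]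
      refine ⟨y1 + d / 4, by omega, Or.inl ?_⟩
      have e5 : K * (4 * y1) = 4 * (K * y1) := by ring
      have h1 : x % 2 = 1 := by
        by_contra h2
        obtain ⟨x1, rfl⟩ : ∃ x1, x = 2 * x1 := ⟨x / 2, by omega⟩
        ring_nf at hxy; omega
      obtain ⟨x1, rfl⟩ : ∃ x1, x = 1 + 4 * x1 := ⟨x / 4, by have := opo_cases hx; omega⟩
      have e6 : (1 + 4 * x1) * (4 * y1) = 4 * (y1 + 4 * (x1 * y1)) := by ring
      have h8 : p % 8 = 1 := by ring_nf at hxy; omega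
      exact ⟨by omega, h8, by omega⟩
  obtain ⟨k, hk, hcase⟩ := hex
  have par : ∀ a : ℤ, (2 : ℤ) ∣ k - a → ((-1 : ZMod p)) ^ k = (-1) ^ a := fun a ha => by
    rw [← iota_zpow hι (a := 2 * k) k (by simp), iota_zpow hι a (by omega)]
  rw [hk, iota_zpow hι k (by simp), iota_zpow hι (a := -(2 * k)) k (by omega)] at hU hV
  rcases hcase with ⟨h1, h2, h3⟩ | ⟨h1, h2, h3⟩
  · have he : Even ((p - 1) / 4) := by rw [Nat.even_iff]; omega
    rw [he.neg_one_pow] at hU hV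
    rw [if_pos h1, if_pos h1, hU, hV, ← par _ h3]
    constructor <;> ring
  · have he : Odd ((p - 1) / 4) := by rw [Nat.odd_iff]; omega
    rw [he.neg_one_pow] at hU hV
    rw [if_neg h1, if_neg h1, hU, hV, ← par _ h3]
    constructor
    · field_simp
      linear_combination (2 * (y : ZMod p)) * hN
    · ring

end Pool.Agent.Lib.MP_953685_nt
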