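import Pool.Agent.Lib.MP_953685_nt.Gauss

/-! The quartic reciprocity law for Jacobi symbols and its supplements. -/

namespace Pool.Agent.Lib.MP_953685_nt

lemma E_zmod {a b : ℤ} (h : (a : ZMod 4) = b) : E a = E b :=
  E_congr' (by
    have := (ZMod.intCast_eq_intCast_iff_dvd_sub b a 4).1 h.symm
    exact_mod_cast this)

lemma E_inj {a b : ℤ} (h : E a = E b) : a % 4 = b % 4 := by
  have h1 : E (a - b) = 1 := by
    rw [sub_eq_add_neg, E_add, h, E_mul_neg]
  have h2 : (a - b) % 4 = 0 ∨ (a - b) % 4 = 1 ∨ (a - b) % 4 = 2 ∨ (a - b) % 4 = 3 := by omega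
  rcases h2 with h2 | h2 | h2 | h2
  · omega
  · rw [E_congr (show (a - b) % 4 = 1 % 4 by omega), E_one] at h1
    have := congrArg Zsqrtd.re h1; simp at this
  · rw [E_congr (show (a - b) % 4 = 2 % 4 by omega), E_two] at h1
    have := congrArg Zsqrtd.re h1; simp at this
  · rw [E_congr (show (a - b) % 4 = 3 % 4 by omega), E_three] at h1
    have := congrArg Zsqrtd.re h1; simp at this

lemma int_ind (P : ℤ → Prop) (h1 : P 1) (hp : ∀ l : ℕ, l.Prime → l % 4 = 1 → P l)
    (hq : ∀ l : ℕ, l.Prime → l % 4 = 3 → P (-(l : ℤ)))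
    (hmul : ∀ a b : ℤ, a % 4 = 1 → b % 4 = 1 → P a → P b → P (a * b)) (a : ℤ) (ha : a % 4 = 1) :
    P a := by
  have key : ∀ n : ℕ, ∀ a : ℤ, a % 4 = 1 → a.natAbs = n → P a := by
    intro n
    induction n using Nat.recOnMul with
    | zero => intro a ha h; omega
    | one => intro a ha h; have : a = 1 := by omega
             rw [this]; exact h1
    | prime l hl =>
      intro a ha h
      rcases Int.natAbs_eq a with h2 | h2
      · rw [h2, h]; exact hp l hl (by omega)
      · rw [h2, h]; exact hq l hl (by omega)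
    | mul u v ihu ihv =>
      intro a ha h
      have huv : (u * v) % 2 = 1 := by omega
      have hu : u % 2 = 1 := by
        rcases Nat.mod_two_eq_zero_or_one u with h0 | h0
        · rw [Nat.mul_mod, h0] at huv; simp at huv
        · exact h0
      have hv : v % 2 = 1 := by
        rcases Nat.mod_two_eq_zero_or_one v with h0 | h0
        · rw [Nat.mul_mod, h0] at huv; simp at huv
        · exact h0
      obtain ⟨u', hu1, hu2⟩ : ∃ u' : ℤ, u' % 4 = 1 ∧ u'.natAbs = u := by
        by_cases h4 : u % 4 = 1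
        · exact ⟨u, by omega, by simp⟩
        · exact ⟨-u, by omega, by simp⟩
      obtain ⟨v', hv1, hv2⟩ : ∃ v' : ℤ, v' % 4 = 1 ∧ v'.natAbs = v := by
        by_cases h4 : v % 4 = 1
        · exact ⟨v, by omega, by simp⟩
        · exact ⟨-v, by omega, by simp⟩
      have h3 : (u' * v') % 4 = 1 := by rw [Int.mul_emod, hu1, hv1]; rfl
      have h4 : (u' * v').natAbs = a.natAbs := by rw [Int.natAbs_mul, hu2, hv2, h]
      have h5 : a = u' * v' := by omega
      rw [h5]
      exact hmul _ _ hu1 hv1 (ihu _ hu1 hu2) (ihv _ hv1 hv2)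
  exact key _ a ha rfl

lemma cast_ne_zero_of_odd {a : ℤ} (h : a % 2 = 1) : (a : G) ≠ 0 := by
  intro h0
  have := congrArg Zsqrtd.re h0
  simp at this; omega

lemma exists_split {l : ℕ} (hl : l.Prime) (hl4 : l % 4 = 1) : ∃ q : G, q.norm = l := by
  have := Fact.mk hl
  obtain ⟨a, b, hab⟩ := Nat.Prime.sq_add_sq (p := l) (by omega)
  exact ⟨⟨a, b⟩, by rw [norm_eq, ← hab]; simp⟩

lemma J_split {q : G} {l : ℕ} (hl : l.Prime) (hn : q.norm = l) (z : G) :
    J z (l : G) = chi z q * star (chi (star z) q) := by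
  have hq := prime_of_norm hl hn
  rw [← mul_star_eq hn, J_mul_right _ hq.ne_zero (prime_star hq).ne_zero, J_prime _ hq,
    J_prime _ (prime_star hq), ← chi_star hq, star_star]

lemma inert_facts {l : ℕ} (hl : l.Prime) {k : ℕ} (hk : l = 4 * k + 3) :
    Prime (l : G) ∧ (l : G).norm % 2 = 1 ∧ kq (l : G) = (l - 1) * (k + 1) := by
  have := Fact.mk hl
  have hq : Prime (l : G) := GaussianInt.prime_of_nat_prime_of_mod_four_eq_three l (by omega)
  have hn : (l : G).norm = (l : ℤ) ^ 2 := by rw [norm_eq]; simp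
  have ho : (l : G).norm % 2 = 1 := by
    rw [hn, hk]; push_cast; ring_nf; omega
  refine ⟨hq, ho, ?_⟩
  have := kq_spec' ho
  rw [hn] at this
  have h2 : ((l : ℤ)) = 4 * k + 3 := by exact_mod_cast hk
  rw [h2] at this
  have h3 : (kq (l : G) : ℤ) = (4 * k + 2) * (k + 1) := by linarith
  rw [show l - 1 = 4 * k + 2 by omega]
  exact_mod_cast h3

lemma coprime_cast {a b : ℤ} (h : IsCoprime a b) : IsCoprime (a : G) (b : G) := by
  simpa using h.map (Int.castRingHom G)

lemma coprime_of_cast {a b : ℤ} (h : IsCoprime (a : G) (b : G)) : IsCoprime a b := by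
  obtain ⟨u, v, huv⟩ := h
  have := congrArg Zsqrtd.re huv
  exact ⟨u.re, v.re, by simpa using this⟩

lemma not_dvd_of_coprime {q z w : G} (hq : Prime q) (h : IsCoprime z w) (hw : q ∣ w) :
    ¬ q ∣ z := fun hd => hq.not_isUnit (h.isUnit_of_dvd' hd hw)

lemma J_rat_one (m : ℤ) (hm : m % 4 = 1) : ∀ a : ℤ, IsCoprime a m → J (a : G) (m : G) = 1 := by
  refine int_ind (fun m => ∀ a : ℤ, IsCoprime a m → J (a : G) (m : G) = 1) ?_ ?_ ?_ ?_ m hm
  · intro a _; exact J_unit _ (by simp)
  · intro l hl hl4 a ha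
    obtain ⟨q, hn⟩ := exists_split hl hl4
    have hq := prime_of_norm hl hn
    obtain ⟨k, hk⟩ := chi_unit hq (not_dvd_of_coprime hq (coprime_cast ha)
      (by simpa using dvd_of_norm hn))
    rw [Int.cast_natCast, J_split hl hn, star_intCast, hk, star_E, E_mul_neg]
  · intro l hl hl4 a ha
    obtain ⟨k, hk⟩ : ∃ k, l = 4 * k + 3 := ⟨l / 4, by omega⟩
    obtain ⟨hq, ho, hkq⟩ := inert_facts hl hk
    rw [Int.cast_neg, J_neg_right, Int.cast_natCast, J_prime _ hq]
    refine chi_eq hq ho S_one ?_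
    have h1 := Int.ModEq.pow_card_sub_one_eq_one hl ((IsCoprime.neg_right_iff _ _).1 ha)
    obtain ⟨c, hc⟩ := h1.symm.dvd
    have h2 : (l : G) ∣ (a : G) ^ (l - 1) - 1 := ⟨(c : G), by
      have := congrArg (Int.cast : ℤ → G) hc
      push_cast at this
      exact this⟩
    rw [hkq, pow_mul]
    exact h2.trans (by simpa using sub_dvd_pow_sub_pow ((a : G) ^ (l - 1)) 1 (k + 1))
  · intro u v hu hv ihu ihv a ha
    rw [Int.cast_mul, J_mul_right _ (cast_ne_zero_of_odd (by omega))
      (cast_ne_zero_of_odd (by omega)), ihu a ha.of_mul_right_left, ihv a ha.of_mul_right_right,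
      mul_one]

lemma J_rat {a m : ℤ} (hm : m % 2 = 1) (h : IsCoprime a m) : J (a : G) (m : G) = 1 := by
  by_cases h4 : m % 4 = 1
  · exact J_rat_one m h4 a h
  · rw [← J_neg_right, ← Int.cast_neg]
    exact J_rat_one (-m) (by omega) a h.neg_right

lemma J_one_add_gi_rat (m : ℤ) (hm : m % 4 = 1) : J (1 + gi) (m : G) = E ((m - 1) / 4) := by
  refine int_ind (fun m => J (1 + gi) (m : G) = E ((m - 1) / 4)) ?_ ?_ ?_ ?_ m hm
  · simp [J_unit _ isUnit_one]
  · intro l hl hl4
    obtain ⟨q, hn⟩ := exists_split hl hl4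
    have hq := prime_of_norm hl hn
    have ho : q.norm % 2 = 1 := by rw [hn]; omega
    have hnd : ¬ q ∣ star (1 + gi) := fun hd =>
      not_dvd_small hq ho hd (by rw [norm_eq]; simp)
    obtain ⟨k, hk⟩ := chi_unit hq hnd
    have e : 1 + gi = gi * star (1 + gi) := by ext <;> simp
    have e2 : chi (1 + gi) q = E (kq q) * E k := by
      rw [e, chi_mul hq, hk, ← J_prime _ hq, J_gi ho]
    rw [Int.cast_natCast, J_split hl hn, e2, hk, star_E, mul_assoc, E_mul_neg, mul_one]
    have := kq_norm hn hl4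
    congr 1; omega
  · intro l hl hl4
    obtain ⟨k, hk⟩ : ∃ k, l = 4 * k + 3 := ⟨l / 4, by omega⟩
    obtain ⟨hq, ho, hkq⟩ := inert_facts hl hk
    rw [Int.cast_neg, J_neg_right, Int.cast_natCast, J_prime _ hq]
    refine chi_eq hq ho (S_E _) ?_
    have := Fact.mk hl
    have := charP_quot hq hl dvd_rfl
    have f := frob_three (Ideal.Quotient.mk (Ideal.span {(l : G)})) l hl4 (1 + gi)
    rw [← map_pow, mk_eq_iff] at f
    have e : (1 + gi) ^ l - star (1 + gi) = (1 + gi) * ((1 + gi) ^ (l - 1) - E 3) := by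
      have e1 : star (1 + gi) = (1 + gi) * E 3 := by rw [E_three]; ext <;> simp
      rw [e1, mul_sub, ← pow_succ', show l - 1 + 1 = l by omega]
    rw [e] at f
    rcases hq.dvd_or_dvd f with f | f
    · exact (not_dvd_small hq ho f (by rw [norm_eq]; simp)).elim
    · have e3 : E ((-(l : ℤ) - 1) / 4) = E 3 ^ (k + 1) := by
        rw [E_pow]; apply E_congr; push_cast; omega
      rw [hkq, pow_mul, e3]
      exact f.trans (sub_dvd_pow_sub_pow _ _ _)
  · intro u v hu hv ihu ihv
    rw [Int.cast_mul, J_mul_right _ (cast_ne_zero_of_odd (by omega))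
      (cast_ne_zero_of_odd (by omega)), ihu, ihv, ← E_add]
    obtain ⟨s, rfl⟩ : ∃ s, u = 1 + 4 * s := ⟨u / 4, by omega⟩
    obtain ⟨t, rfl⟩ : ∃ t, v = 1 + 4 * t := ⟨v / 4, by omega⟩
    apply E_congr
    have : (1 + 4 * s) * (1 + 4 * t) - 1 = 4 * (s + t + 4 * (s * t)) := by ring
    rw [this]; omega

/-- congruent to `1` modulo `2` -/
def Semi (α : G) : Prop := α.re % 2 = 1 ∧ α.im % 2 = 0

lemma Semi.norm_odd {α : G} (h : Semi α) : α.norm % 2 = 1 := by
  obtain ⟨a, ha⟩ : ∃ a, α.re = 1 + 2 * a := ⟨α.re / 2, by have := h.1; omega⟩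
  obtain ⟨b, hb⟩ : ∃ b, α.im = 2 * b := ⟨α.im / 2, by have := h.2; omega⟩
  rw [norm_eq, ha, hb]; ring_nf; omega

lemma Semi.ne_zero {α : G} (h : Semi α) : α ≠ 0 := by
  rintro rfl
  have := h.1; simp at this

lemma Semi.of_mul {α β : G} (h : Semi (α * β)) (hα : Semi α) : Semi β := by
  obtain ⟨a, ha⟩ : ∃ a, α.re = 1 + 2 * a := ⟨α.re / 2, by have := hα.1; omega⟩
  obtain ⟨b, hb⟩ : ∃ b, α.im = 2 * b := ⟨α.im / 2, by have := hα.2; omega⟩
  obtain ⟨h1, h2⟩ := h
  have e1 : (α * β).re = β.re + 2 * (a * β.re - b * β.im) := by simp [ha, hb]; ring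
  have e2 : (α * β).im = β.im + 2 * (a * β.im + b * β.re) := by simp [ha, hb]; ring
  constructor <;> omega

lemma semi_cast {a : ℤ} (h : a % 2 = 1) : Semi (a : G) := ⟨by simpa using h, by simp⟩

lemma odd_of_dvd {q α : G} (h : q ∣ α) (ho : α.norm % 2 = 1) : q.norm % 2 = 1 := by
  obtain ⟨c, hc⟩ := norm_dvd h
  rcases Int.emod_two_eq_zero_or_one q.norm with h1 | h1
  · rw [hc, Int.mul_emod, h1] at ho; simp at ho
  · exact h1

lemma semi_or {q : G} (ho : q.norm % 2 = 1) : Semi q ∨ Semi (gi * q) := by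
  rw [norm_eq] at ho
  obtain ⟨a, ha⟩ : ∃ a, q.re = 2 * a ∨ q.re = 2 * a + 1 := ⟨q.re / 2, by omega⟩
  obtain ⟨b, hb⟩ : ∃ b, q.im = 2 * b ∨ q.im = 2 * b + 1 := ⟨q.im / 2, by omega⟩
  rcases ha with ha | ha <;> rcases hb with hb | hb
  · rw [ha, hb] at ho; ring_nf at ho; omega
  · right; constructor <;> simp <;> omega
  · left; constructor <;> omega
  · rw [ha, hb] at ho; ring_nf at ho; omega

lemma eq_cast_of_im {α : G} (h : α.im = 0) : α = (α.re : G) := by
  ext <;> simp [h]

lemma rat_recip_cast {a n : ℤ} (ha : a % 2 = 1) (hn : n % 2 = 1)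
    (h : IsCoprime (a : G) (n : G)) : J (a : G) (n : G) = J (n : G) (a : G) := by
  rw [J_rat hn (coprime_of_cast h), J_rat ha (coprime_of_cast h).symm]

lemma rat_recip_prime {α : G} (hq : Prime α) (hα : Semi α) (a : ℤ) (ha : a % 4 = 1)
    (h : IsCoprime (a : G) α) : J (a : G) α = J α (a : G) := by
  obtain ⟨r, hr, hd⟩ := exists_below hq
  rcases norm_cases hq hr hd with hn | ⟨h1, h2, h3⟩
  · have hr4 : r % 4 = 1 := by
      have := norm_mod_four hα.norm_odd
      omega
    have := Fact.mk hr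
    revert h
    refine int_ind (fun a => IsCoprime (a : G) α → J (a : G) α = J α (a : G)) ?_ ?_ ?_ ?_ a ha
    · intro _; simp [J_one_left, J_unit _ isUnit_one]
    · intro l hl hl4 h
      rw [Int.cast_natCast] at h ⊢
      rw [J_prime _ hq]
      refine recip_split hn hr4 hα.2 hl hl4 ?_
      rintro rfl
      exact not_dvd_of_coprime hq h dvd_rfl hd
    · intro l hl hl4 _
      rw [Int.cast_neg, Int.cast_natCast, J_prime _ hq, J_neg_right]
      exact recip_inert hn hr4 hα.2 hl hl4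
    · intro u v hu hv ihu ihv h
      rw [Int.cast_mul] at h ⊢
      rw [J_mul_left, J_mul_right _ (cast_ne_zero_of_odd (by omega))
        (cast_ne_zero_of_odd (by omega)), ihu h.of_mul_left_left, ihv h.of_mul_left_right]
  · obtain ⟨u, hu⟩ := h1.symm
    have hn := norm_of_isUnit _ u.isUnit
    have hs : Semi (u : G) := Semi.of_mul (hu ▸ hα) (by
      have := semi_cast (a := r) (by omega)
      simpa using this)
    have him : (u : G).im = 0 := by
      rw [norm_eq] at hn
      have h5 := hs.2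
      have h6 : (u : G).im ^ 2 ≤ 1 := by nlinarith [sq_nonneg (u : G).re]
      have h7 : -1 ≤ (u : G).im := by nlinarith
      have h8 : (u : G).im ≤ 1 := by nlinarith
      omega
    have h9 : α.im = 0 := by rw [← hu]; simp [him]
    rw [eq_cast_of_im h9] at h ⊢
    exact rat_recip_cast (by omega) hα.1 h

theorem rat_recip {a : ℤ} (ha : a % 4 = 1) {α : G} (hα : Semi α) (h : IsCoprime (a : G) α) :
    J (a : G) α = J α (a : G) := by
  induction hn : α.norm.natAbs using Nat.strong_induction_on generalizing α with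
  | _ n ih =>
    by_cases hu : IsUnit α
    · have hn := norm_of_isUnit _ hu
      have him : α.im = 0 := by
        rw [norm_eq] at hn
        have h5 := hα.2
        have h6 : α.im ^ 2 ≤ 1 := by nlinarith [sq_nonneg α.re]
        have h7 : -1 ≤ α.im := by nlinarith
        have h8 : α.im ≤ 1 := by nlinarith
        omega
      rw [eq_cast_of_im him] at h ⊢
      exact rat_recip_cast (by omega) hα.1 h
    · obtain ⟨q, hq, hd⟩ := WfDvdMonoid.exists_irreducible_factor hu hα.ne_zero
      have hq := hq.prime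
      obtain ⟨q', hq', hs, hd'⟩ : ∃ q' : G, Prime q' ∧ Semi q' ∧ q' ∣ α := by
        rcases semi_or (odd_of_dvd hd hα.norm_odd) with h1 | h1
        · exact ⟨q, hq, h1, hd⟩
        · have hu : IsUnit gi := isUnit_of_norm _ (by rw [norm_eq]; simp)
          have has : Associated q (gi * q) := associated_unit_mul_right _ _ hu
          exact ⟨gi * q, has.prime hq, h1, has.dvd_iff_dvd_left.1 hd⟩
      obtain ⟨β, rfl⟩ := hd'
      have hβ := hα.of_mul hs
      have hlt : β.norm.natAbs < n := by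
        rw [← hn, Zsqrtd.norm_mul, Int.natAbs_mul]
        have h1 := hs.norm_odd
        have h2 := hβ.norm_odd
        have h3 : q'.norm ≠ 1 := fun h => hq'.not_isUnit (isUnit_of_norm _ h)
        have h4 := norm_nonneg' q'
        have h5 : 1 < q'.norm.natAbs := by omega
        have h6 : 0 < β.norm.natAbs := by omega
        nlinarith
      rw [J_mul_right _ hs.ne_zero hβ.ne_zero, J_mul_left,
        rat_recip_prime hq' hs a ha h.of_mul_right_left, ih _ hlt hβ h.of_mul_right_right rfl]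

lemma J_gi_semi {α : G} {a b : ℤ} (ha : α.re = 1 + 2 * a) (hb : α.im = 2 * b) :
    J gi α = E (a * (a + 1) + b ^ 2) := by
  have hs : Semi α := ⟨by omega, by omega⟩
  rw [J_gi hs.norm_odd]
  congr 1
  have := kq_spec' hs.norm_odd
  rw [norm_eq, ha, hb] at this
  linarith

lemma J_gi_rat {a a' : ℤ} (ha : a = 1 + 2 * a') : J gi (a : G) = E (a' * (a' + 1)) := by
  rw [J_gi_semi (a := a') (b := 0) (by simpa using ha) (by simp)]; simp

lemma J_neg_one {α : G} (hα : Semi α) {b : ℤ} (hb : α.im = 2 * b) : J (-1) α = E (2 * b) := by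
  obtain ⟨a, ha⟩ : ∃ a, α.re = 1 + 2 * a := ⟨α.re / 2, by have := hα.1; omega⟩
  rw [← gi_mul_gi, J_mul_left, J_gi_semi ha hb, ← E_add]
  apply E_zmod
  push_cast
  generalize (a : ZMod 4) = a; generalize (b : ZMod 4) = b
  revert a b; decide

theorem rat_recip_odd {a a' b : ℤ} (ha : a = 1 + 2 * a') {α : G} (hα : Semi α)
    (hb : α.im = 2 * b) (h : IsCoprime (a : G) α) :
    J (a : G) α = E (2 * (a' * b)) * J α (a : G) := by
  rcases Int.emod_two_eq_zero_or_one a' with h2 | h2
  · obtain ⟨t, rfl⟩ : ∃ t, a' = 2 * t := ⟨a' / 2, by omega⟩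
    rw [rat_recip (by omega) hα h, E_congr' (b := 0) ⟨t * b, by ring⟩, E_zero, one_mul]
  · obtain ⟨t, rfl⟩ : ∃ t, a' = 2 * t + 1 := ⟨a' / 2, by omega⟩
    have e : (a : G) = -1 * ((-a : ℤ) : G) := by push_cast; ring
    have h3 : IsCoprime ((-a : ℤ) : G) α := by push_cast; exact h.neg_left
    conv_lhs => rw [e]
    rw [J_mul_left, J_neg_one hα hb, rat_recip (by omega) hα h3, Int.cast_neg, J_neg_right]
    congr 1
    exact E_congr' ⟨-(t * b), by ring⟩

lemma coprime_star {z : G} {n : ℤ} (h : IsCoprime z (n : G)) : IsCoprime (star z) (n : G) := by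
  obtain ⟨u, v, huv⟩ := h
  refine ⟨star u, star v, ?_⟩
  have := congrArg star huv
  simpa [star_mul'] using this

/-- elements proportional modulo `n` have the same symbol -/
lemma J_prop {z w : G} {n : ℤ} (hn : n % 2 = 1) (hz : IsCoprime z (n : G))
    (hw : IsCoprime w (n : G)) (h : n ∣ (z * star w).im) : J z (n : G) = J w (n : G) := by
  obtain ⟨c, hc⟩ := h
  have hd : (n : G) ∣ z * star w - ((z * star w).re : G) := ⟨(c : G) * gi, by
    conv_lhs => rw [G_eq (z * star w)]
    rw [hc]; simp only [Zsqrtd.re_add, Zsqrtd.re_intCast, Zsqrtd.re_mul, gi_re, gi_im,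
      Zsqrtd.im_intCast]
    push_cast; ring⟩
  have h1 : IsCoprime (z * star w) (n : G) := hz.mul_left (coprime_star hw)
  have h2 : IsCoprime (((z * star w).re : ℤ) : G) (n : G) := by
    obtain ⟨e, he⟩ := hd
    have : (((z * star w).re : ℤ) : G) = z * star w + (n : G) * (-e) := by linear_combination -he
    rw [this]; exact h1.add_mul_left_left _
  have h3 := J_congr (cast_ne_zero_of_odd hn) hd
  rw [J_rat hn (coprime_of_cast h2), J_mul_left] at h3
  obtain ⟨k, hk⟩ := J_coprime hw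
  have h4 : J (star w) (n : G) = E (-k) := by
    rw [← star_E, ← hk, ← J_star, star_intCast]
  rw [h4] at h3
  rw [hk]
  exact mul_right_cancel₀ (E_ne_zero (-k)) (h3.trans (E_mul_neg k).symm)

lemma isUnit_gi : IsUnit gi := isUnit_of_norm _ (by rw [norm_eq]; simp)

lemma coprime_gi (z : G) : IsCoprime gi z := by
  obtain ⟨v, hv⟩ := isUnit_gi.exists_left_inv
  exact ⟨v, 0, by simp [hv]⟩

lemma coprime_re {α : G} (h : IsCoprime α.re α.im) : IsCoprime α (α.re : G) := by
  obtain ⟨u, v, huv⟩ := h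
  refine ⟨-gi * v, u + gi * v, ?_⟩
  have := congrArg (Int.cast : ℤ → G) huv
  push_cast at this
  have e := G_eq α
  linear_combination this + (-gi * v) * e + (-(v : G) * (α.im : G)) * gi_mul_gi

lemma J_self_re {α : G} (h : IsCoprime α.re α.im) (ho : α.re % 2 = 1) :
    J α (α.re : G) = J gi (α.re : G) :=
  J_prop ho (coprime_re h) (coprime_gi _) ⟨-1, by simp⟩

lemma J_re_self {α : G} (h : IsCoprime α.re α.im) {a b : ℤ} (ha : α.re = 1 + 2 * a)
    (hb : α.im = 2 * b) : J (α.re : G) α = E (2 * (a * b) + a * (a + 1)) := by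
  rw [rat_recip_odd ha ⟨by omega, by omega⟩ hb (coprime_re h).symm, J_self_re h (by omega),
    J_gi_rat ha, E_add]

/-- Quartic reciprocity, primitive case. -/
theorem recip_prim {α β : G} {a b c d : ℤ} (ha : α.re = 1 + 2 * a) (hb : α.im = 2 * b)
    (hc : β.re = 1 + 2 * c) (hd : β.im = 2 * d) (hα : IsCoprime α.re α.im)
    (hβ : IsCoprime β.re β.im) (h : IsCoprime α β) :
    J α β = E (2 * (b * c + d * (a + b))) * J β α := by
  have sα : Semi α := ⟨by omega, by omega⟩
  have sβ : Semi β := ⟨by omega, by omega⟩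
  set γ : G := α * star β with hγ
  have hM : γ.re = 1 + 2 * (a + c + 2 * a * c + 2 * b * d) := by
    simp [hγ, ha, hb, hc, hd]; ring
  have hN : γ.im = 2 * (b * (1 + 2 * c) - d * (1 + 2 * a)) := by
    simp [hγ, ha, hb, hc, hd]; ring
  have d1 : β ∣ (β.re : G) * α - (γ.re : G) := ⟨(α.im : G) * gi, by
    ext
    · simp [hγ]; ring
    · simp [hγ]⟩
  have d2 : α ∣ (α.re : G) * β - (γ.re : G) := ⟨(β.im : G) * gi, by
    ext <;> simp [hγ]⟩
  have c1 : IsCoprime (γ.re : G) β := by
    obtain ⟨e, he⟩ := d1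
    have : (γ.re : G) = (β.re : G) * α + β * (-e) := by linear_combination -he
    rw [this]
    exact ((coprime_re hβ).symm.mul_left h).add_mul_left_left _
  have c2 : IsCoprime (γ.re : G) α := by
    obtain ⟨e, he⟩ := d2
    have : (γ.re : G) = (α.re : G) * β + α * (-e) := by linear_combination -he
    rw [this]
    exact ((coprime_re hα).symm.mul_left h.symm).add_mul_left_left _
  have c3 : IsCoprime (γ.re : G) γ := c2.mul_right (coprime_star c1.symm).symm
  have sγ : Semi γ := ⟨by omega, by omega⟩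
  have e1 := J_congr sβ.ne_zero d1
  have e2 := J_congr sα.ne_zero d2
  rw [J_mul_left, J_re_self hβ hc hd] at e1
  rw [J_mul_left, J_re_self hα ha hb] at e2
  have e3 : J (γ.re : G) γ = J (γ.re : G) α * star (J (γ.re : G) β) := by
    rw [← J_star, star_intCast, ← J_mul_right _ sα.ne_zero (star_ne_zero.2 sβ.ne_zero)]
  rw [rat_recip_odd hM sγ hN c3, J_prop (by omega) c3.symm (coprime_gi _) ⟨-1, by simp⟩,
    J_gi_rat hM, ← e1, ← e2] at e3
  obtain ⟨s, hs⟩ := J_coprime h
  obtain ⟨t, ht⟩ := J_coprime h.symm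
  rw [hs, ht, ← E_add, ← E_add, ← E_add, star_E, ← E_add] at e3
  have e4 := E_inj e3
  rw [hs, ht, ← E_add]
  have e5 : E (2 * (a * b) + a * (a + 1) - (2 * (c * d) + c * (c + 1)) -
      (2 * ((a + c + 2 * a * c + 2 * b * d) * (b * (1 + 2 * c) - d * (1 + 2 * a))) +
      (a + c + 2 * a * c + 2 * b * d) * (a + c + 2 * a * c + 2 * b * d + 1))) =
      E (2 * (b * c + d * (a + b))) := by
    apply E_zmod
    push_cast
    generalize (a : ZMod 4) = a; generalize (b : ZMod 4) = b
    generalize (c : ZMod 4) = c; generalize (d : ZMod 4) = d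
    revert a b c d; decide
  have e6 := E_inj e5
  apply E_congr
  omega

lemma coprime_one_add_gi {n : ℤ} (hn : n % 2 = 1) : IsCoprime (1 + gi) (n : G) := by
  obtain ⟨t, rfl⟩ : ∃ t, n = 1 + 2 * t := ⟨n / 2, by omega⟩
  refine ⟨-(t : G) * (1 - gi), 1, ?_⟩
  push_cast
  linear_combination (t : G) * gi_mul_gi

lemma J_one_add_gi_aux {α : G} (h : IsCoprime α.re α.im) {a b : ℤ} (ha : α.re = 1 + 2 * a)
    (hb : α.im = 2 * b) :
    E (2 * (a * b) + a * (a + 1)) * J (1 + gi) α =
      E (2 * ((a + b) * b) + (a + b) * (a + b + 1)) * J (1 + gi) ((α.re + α.im : ℤ) : G) := by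
  have sα : Semi α := ⟨by omega, by omega⟩
  have d1 : α ∣ (α.re : G) * (1 + gi) - ((α.re + α.im : ℤ) : G) := ⟨gi, by
    ext <;> simp⟩
  have hw : α.re + α.im = 1 + 2 * (a + b) := by omega
  have c0 : IsCoprime (1 + gi) α := by
    have := coprime_one_add_gi sα.norm_odd
    rw [Zsqrtd.norm_eq_mul_conj] at this
    exact this.of_mul_right_left
  have c1 : IsCoprime ((α.re + α.im : ℤ) : G) α := by
    obtain ⟨e, he⟩ := d1
    have : ((α.re + α.im : ℤ) : G) = (α.re : G) * (1 + gi) + α * (-e) := by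
      linear_combination -he
    rw [this]
    exact ((coprime_re h).symm.mul_left c0).add_mul_left_left _
  have e1 := J_congr sα.ne_zero d1
  rw [J_mul_left, J_re_self h ha hb, rat_recip_odd hw sα hb c1,
    J_prop (w := gi * (1 + gi)) (by omega) c1.symm
      ((coprime_gi _).mul_left (coprime_one_add_gi (by omega))) ⟨-1, by simp; ring⟩,
    J_mul_left, J_gi_rat hw] at e1
  rw [E_add (2 * ((a + b) * b)), mul_assoc (E (2 * ((a + b) * b)))]
  exact e1

lemma J_one_add_gi_four {α : G} (h : IsCoprime α.re α.im) {a b : ℤ} (ha : α.re = 1 + 4 * a)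
    (hb : α.im = 4 * b) : J (1 + gi) α = E (a - b) := by
  have e := J_one_add_gi_aux h (a := 2 * a) (b := 2 * b) (by omega) (by omega)
  rw [J_one_add_gi_rat _ (by omega), show (α.re + α.im - 1) / 4 = a + b by omega, ← E_add] at e
  apply mul_left_cancel₀ (E_ne_zero (2 * (2 * a * (2 * b)) + 2 * a * (2 * a + 1)))
  rw [e, ← E_add]
  apply E_zmod
  push_cast
  generalize (a : ZMod 4) = a; generalize (b : ZMod 4) = b
  revert a b; decide

lemma J_one_add_gi_two {α : G} (h : IsCoprime α.re α.im) {a b : ℤ} (ha : α.re = 1 + 4 * a)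
    (hb : α.im = 2 + 4 * b) : J (1 + gi) α = E (b - a - 1) := by
  have e := J_one_add_gi_aux h (a := 2 * a) (b := 1 + 2 * b) (by omega) (by omega)
  rw [← J_neg_right _ ((α.re + α.im : ℤ) : G), ← Int.cast_neg, J_one_add_gi_rat _ (by omega),
    show (-(α.re + α.im) - 1) / 4 = -(a + b + 1) by omega, ← E_add] at e
  apply mul_left_cancel₀ (E_ne_zero (2 * (2 * a * (1 + 2 * b)) + 2 * a * (2 * a + 1)))
  rw [e, ← E_add]
  apply E_zmod
  push_cast
  generalize (a : ZMod 4) = a; generalize (b : ZMod 4) = b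
  revert a b; decide

lemma J_two_prim_one {α : G} (h : IsCoprime α.re α.im) (ha : α.re % 4 = 1) {b : ℤ}
    (hb : α.im = 2 * b) : J 2 α = E (α.re * b) := by
  obtain ⟨a, ha⟩ : ∃ a, α.re = 1 + 4 * a := ⟨α.re / 4, by omega⟩
  have e : (2 : G) = gi ^ 3 * (1 + gi) ^ 2 := by
    linear_combination (-2 * (gi ^ 2 - 1) - gi ^ 3) * gi_sq
  rw [e, J_mul_left, J_pow_left, J_pow_left, J_gi_semi (a := 2 * a) (by omega) hb]
  rcases Int.emod_two_eq_zero_or_one b with h2 | h2
  · obtain ⟨t, rfl⟩ : ∃ t, b = 2 * t := ⟨b / 2, by omega⟩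
    rw [J_one_add_gi_four h ha (b := t) (by omega), E_pow, E_pow, ← E_add, ha]
    apply E_zmod
    push_cast
    generalize (a : ZMod 4) = a; generalize (t : ZMod 4) = t
    revert a t; decide
  · obtain ⟨t, rfl⟩ : ∃ t, b = 1 + 2 * t := ⟨b / 2, by omega⟩
    rw [J_one_add_gi_two h ha (b := t) (by omega), E_pow, E_pow, ← E_add, ha]
    apply E_zmod
    push_cast
    generalize (a : ZMod 4) = a; generalize (t : ZMod 4) = t
    revert a t; decide

lemma J_two_prim {α : G} (h : IsCoprime α.re α.im) (ha : α.re % 2 = 1) {b : ℤ}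
    (hb : α.im = 2 * b) : J 2 α = E (α.re * b) := by
  by_cases h4 : α.re % 4 = 1
  · exact J_two_prim_one h h4 hb
  · rw [← J_neg_right, J_two_prim_one (α := -α) (by simpa using h.neg_neg) (by simp; omega)
      (b := -b) (by simp [hb])]
    simp

end Pool.Agent.Lib.MP_953685_nt
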